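import Pool.Agent.Q116.BR.Rank

set_option autoImplicit false

namespace Pool.Agent.Q116.BR

open Polynomial

universe u

variable {A : Type u} [AddCommGroup A] [Group A]

theorem sub_top (h : IsBrace A) {c : A} (hc : ∀ k, Commute c k) : Sub h c ⊤ :=
  ⟨trivial, fun k _ => hc k, fun _ _ => trivial⟩

/-- Additive torsion-freeness of braces with a logarithm and central commutators. -/
theorem tf_of_class_two (h : IsBrace A) (L : LG A)
    (hC : ∀ a b c : A, Commute (a * b * a⁻¹ * b⁻¹) c) : TF A := by
  have hpr : ∀ p : ℕ, p.Prime → ∀ x : A, (p : ℤ) • x = 0 → x = 0 := by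
    intro p hp x hx
    by_contra hx0
    let K : AddSubgroup A :=
      { carrier := {k | (p : ℤ) • k = 0}
        add_mem' := by
          intro a b ha hb
          simp only [Set.mem_ofPred_eq] at *
          rw [smul_add, ha, hb, add_zero]
        zero_mem' := smul_zero _
        neg_mem' := by
          intro a ha
          simp only [Set.mem_ofPred_eq] at *
          rw [smul_neg, ha, neg_zero] }
    have hKmem : ∀ k : A, k ∈ K ↔ (p : ℤ) • k = 0 := fun k => Iff.rfl
    have hKlam : ∀ a k : A, k ∈ K → lam h a k ∈ K := by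
      intro a k hk
      rw [hKmem] at *
      rw [← map_zsmul, hk, map_zero]
    have hKmul : ∀ a b : A, a ∈ K → b ∈ K → a * b ∈ K := by
      intro a b ha hb
      rw [mul_eq h]
      exact K.add_mem ha (hKlam a b hb)
    have hKinv : ∀ a : A, a ∈ K → a⁻¹ ∈ K := by
      intro a ha
      have h1 : a⁻¹ = lam h a⁻¹ (-a) := by
        have h2 : a⁻¹ * a = a⁻¹ + lam h a⁻¹ a := mul_eq h _ _
        rw [inv_mul_cancel, one_eq_zero h] at h2
        rw [map_neg, eq_neg_iff_add_eq_zero]
        exact h2.symm
      rw [h1]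
      exact hKlam _ _ (K.neg_mem ha)
    have hstab : ∀ z k : A, k ∈ K → uu h z k ∈ K := by
      intro z k hk
      rw [uu_apply]
      exact K.sub_mem (hKlam z k hk) hk
    have hex : ∃ z ∈ K, z ≠ 0 ∧ ∀ k ∈ K, Commute z k := by
      by_cases hab : ∀ a ∈ K, ∀ b ∈ K, Commute a b
      · exact ⟨x, hx, hx0, fun k hk => hab x hx k hk⟩
      · push Not at hab
        obtain ⟨a, ha, b, hb, hn⟩ := hab
        refine ⟨a * b * a⁻¹ * b⁻¹, ?_, ?_, fun k _ => hC a b k⟩
        · exact hKmul _ _ (hKmul _ _ (hKmul _ _ ha hb) (hKinv _ ha)) (hKinv _ hb)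
        · intro h0
          apply hn
          rw [← one_eq_zero h, mul_inv_eq_one, mul_inv_eq_iff_eq_mul] at h0
          exact h0
    obtain ⟨z, hz, hz0, hzc⟩ := hex
    exact hz0 (torsion_free_aux (h := h) (K := K) ⟨hz, hzc, hstab z⟩ L hp (fun k hk => hk))
  have hnat : ∀ n : ℕ, n ≠ 0 → ∀ x : A, (n : ℤ) • x = 0 → x = 0 := by
    intro n
    induction n using Nat.strong_induction_on with
    | _ n ih =>
      intro hn x hx
      by_cases h1 : n = 1
      · subst h1
        simpa using hx
      · obtain ⟨p, hp, m, rfl⟩ := Nat.exists_prime_and_dvd h1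
        have hm : m ≠ 0 := fun h0 => hn (by rw [h0, mul_zero])
        have hlt : m < p * m := by
          have := hp.two_le
          nlinarith [Nat.pos_of_ne_zero hm]
        apply ih m hlt hm
        apply hpr p hp
        rw [smul_smul]
        exact_mod_cast hx
  intro n x hn hx
  rcases Int.natAbs_eq n with h1 | h1
  · rw [h1] at hx
    exact hnat n.natAbs (by omega) x hx
  · rw [h1, neg_smul, neg_eq_zero] at hx
    exact hnat n.natAbs (by omega) x hx

theorem pow_formula {h : IsBrace A} {c : A} {K : AddSubgroup A} (hsc : Sub h c K) (p j : ℕ) :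
    aeval (uu h (c ^ p)) (X ^ j : ℤ[X]) (c ^ p) =
      aeval (uu h c) (X ^ j * (divX ((1 + X : ℤ[X]) ^ p)) ^ (j + 1)) c := by
  set N : ℤ[X] := divX ((1 + X : ℤ[X]) ^ p) with hN
  have hXN : (1 + X : ℤ[X]) ^ p = 1 + X * N := X_mul_divX (coeff_zero_pow (by simp) p)
  have hzc : c ^ p = aeval (uu h c) N c := by
    rw [hsc.pow_eq]; rfl
  have huz : uu h (c ^ p) = aeval (uu h c) (X * N) := by
    have h1 : lam h c = 1 + uu h c := by unfold uu; abel
    have h2 : lam h (c ^ p) = aeval (uu h c) ((1 + X : ℤ[X]) ^ p) := by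
      rw [lam_pow, h1, map_pow, map_add, map_one, aeval_X]
    have h3 : uu h (c ^ p) = lam h (c ^ p) - 1 := rfl
    rw [h3, h2, hXN, map_add, map_one, add_sub_cancel_left]
  have h4 : aeval (uu h (c ^ p)) (X ^ j : ℤ[X]) = aeval (uu h c) ((X * N) ^ j) := by
    rw [map_pow, aeval_X, huz, ← map_pow]
  rw [h4]
  conv_lhs => rw [hzc]
  rw [← aeval_mul_apply]
  congr 2
  ring

theorem lam_of_uu {h : IsBrace A} {a b : A} (hab : uu h a b = 0) : lam h a b = b := by
  rw [uu_apply, sub_eq_zero] at hab
  exact hab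

theorem uu_of_lam {h : IsBrace A} {a b : A} (hab : lam h a b = b) : uu h a b = 0 := by
  rw [uu_apply, hab, sub_self]

theorem polar {h : IsBrace A} (hT : TF A) {r s : A} (hrs : Commute r s)
    (hr : uu h r r = 0) (hs : uu h s s = 0) (ht : uu h (r * s) (r * s) = 0) : uu h r s = 0 := by
  have hr' := lam_of_uu hr
  have hs' := lam_of_uu hs
  have hm : uu h r s = uu h s r := uu_swap h hrs
  set m := uu h r s with hmdef
  have e1 : lam h r s = s + m := by rw [hmdef, uu_apply]; abel
  have e2 : lam h s r = r + m := by rw [hm, uu_apply]; abel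
  have hc : ∀ x, lam h r (lam h s x) = lam h s (lam h r x) := by
    intro x
    change (lam h r * lam h s) x = (lam h s * lam h r) x
    rw [(lam_comm h hrs).eq]
  have e3 : lam h r m = m := by
    have : m = lam h s r - r := by rw [e2]; abel
    rw [this, map_sub, hc, hr']
  have e4 : lam h s m = m := by
    have : m = lam h r s - s := by rw [e1]; abel
    rw [this, map_sub, ← hc, hs']
  have e5 : r * s = r + s + m := by rw [mul_eq h, e1, add_assoc]
  have e6 : lam h (r * s) (r * s) = r + s + m + m + m := by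
    have : lam h (r * s) (r * s) = lam h r (lam h s (r * s)) := by
      rw [lam_mul]; rfl
    rw [this, e5]
    simp only [map_add, e1, e2, e3, e4, hr', hs']
    abel
  have e7 := lam_of_uu ht
  rw [e6, e5] at e7
  have e8 : (2 : ℤ) • m = 0 := by
    have : r + s + m + m + m - (r + s + m) = 0 := by rw [e7, sub_self]
    rw [two_smul]
    rw [← this]
    abel
  exact hT 2 m (by norm_num) e8

/-- Commutative braces with trivial squares on a spanning set are trivial. -/
theorem abelian_trivial {h : IsBrace A} (L : LG A) (hT : TF A) (hcomm : ∀ a b : A, Commute a b)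
    (r s : A) (hr : uu h r r = 0) (hs : uu h s s = 0) (hrs : uu h (r * s) (r * s) = 0)
    (hspan : ∀ x : A, ∃ n : ℕ, n ≠ 0 ∧ ∃ a b : ℤ, x ^ n = r ^ a * s ^ b) :
    ∀ a b : A, uu h a b = 0 := by
  have hm := polar hT (hcomm r s) hr hs hrs
  have hm' : uu h s r = 0 := by rw [uu_swap h (hcomm s r), hm]
  let W : AddSubgroup A := AddSubgroup.closure {r, s}
  have hW : ∀ g : A, lam h g r = r → lam h g s = s → ∀ w ∈ W, lam h g w = w := by
    intro g h1 h2 w hw
    induction hw using AddSubgroup.closure_induction with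
    | mem x hx =>
      rcases hx with rfl | hx
      · exact h1
      · rw [Set.mem_singleton_iff] at hx; subst hx; exact h2
    | zero => exact map_zero _
    | add x y _ _ hx hy => rw [map_add, hx, hy]
    | neg x _ hx => rw [map_neg, hx]
  let T : Subgroup A :=
    { carrier := {g | lam h g r = r ∧ lam h g s = s ∧ g ∈ W}
      mul_mem' := by
        rintro a b ⟨ha1, ha2, ha3⟩ ⟨hb1, hb2, hb3⟩
        refine ⟨?_, ?_, ?_⟩
        · rw [lam_mul]; change lam h a (lam h b r) = r; rw [hb1, ha1]
        · rw [lam_mul]; change lam h a (lam h b s) = s; rw [hb2, ha2]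
        · rw [mul_eq h, hW a ha1 ha2 b hb3]; exact W.add_mem ha3 hb3
      one_mem' := by
        refine ⟨?_, ?_, ?_⟩
        · rw [lam_one]; rfl
        · rw [lam_one]; rfl
        · rw [one_eq_zero h]; exact W.zero_mem
      inv_mem' := by
        rintro a ⟨ha1, ha2, ha3⟩
        have hinv : a⁻¹ = -a := by
          have h1 : a * (-a) = 1 := by
            rw [mul_eq h, map_neg, hW a ha1 ha2 a ha3, one_eq_zero h]; abel
          exact inv_eq_of_mul_eq_one_right h1
        refine ⟨?_, ?_, ?_⟩
        · apply lam_inj h a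
          have : lam h a (lam h a⁻¹ r) = r := by
            change (lam h a * lam h a⁻¹) r = r
            rw [← lam_mul, mul_inv_cancel, lam_one]; rfl
          rw [this, ha1]
        · apply lam_inj h a
          have : lam h a (lam h a⁻¹ s) = s := by
            change (lam h a * lam h a⁻¹) s = s
            rw [← lam_mul, mul_inv_cancel, lam_one]; rfl
          rw [this, ha2]
        · rw [hinv]; exact W.neg_mem ha3 }
  have hrT : r ∈ T := ⟨lam_of_uu hr, lam_of_uu hm, AddSubgroup.subset_closure (by simp)⟩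
  have hsT : s ∈ T := ⟨lam_of_uu hm', lam_of_uu hs, AddSubgroup.subset_closure (by simp)⟩
  have hsq : ∀ x : A, uu h x x = 0 := by
    classical
    intro x
    obtain ⟨n, hn, a, b, hx⟩ := hspan x
    have hT' : x ^ n ∈ T := by
      rw [hx]
      exact T.mul_mem (T.zpow_mem hrT a) (T.zpow_mem hsT b)
    have h1 : uu h (x ^ n) (x ^ n) = 0 := uu_of_lam (hW _ hT'.1 hT'.2.1 _ hT'.2.2)
    have hsx := sub_top h (hcomm x)
    have h2 := pow_formula hsx n 1
    rw [pow_one, aeval_X_apply, h1] at h2
    have hnx := nilpotent hsx L hT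
    set k := Nat.find hnx with hk
    have hk0 := Nat.find_spec hnx
    rw [← hk] at hk0
    have hkmin : ∀ j, j < k → aeval (uu h x) (X ^ j : ℤ[X]) x ≠ 0 := fun j hj =>
      Nat.find_min hnx hj
    by_contra hcon
    have hk2 : 2 ≤ k := by
      by_contra hlt
      have : k = 0 ∨ k = 1 := by omega
      rcases this with h0 | h0
      · rw [h0, pow_zero, aeval_one_apply] at hk0
        apply hcon
        have : uu h x x = uu h x 0 := by rw [hk0]
        rw [this, map_zero]
      · rw [h0, pow_one, aeval_X_apply] at hk0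
        exact hcon hk0
    apply hkmin (k - 1) (by omega)
    have h3 : aeval (uu h x) (X ^ (k - 1) * (divX ((1 + X : ℤ[X]) ^ n)) ^ 2) x = 0 := by
      have : X ^ (k - 1) * (divX ((1 + X : ℤ[X]) ^ n)) ^ 2 =
          X ^ (k - 2) * (X * (divX ((1 + X : ℤ[X]) ^ n)) ^ (1 + 1)) := by
        have e : (X : ℤ[X]) ^ (k - 1) = X ^ (k - 2) * X := by
          rw [← pow_succ]; congr 1; omega
        rw [e]; ring
      rw [this, aeval_mul_apply, ← h2, map_zero]
    rw [low _ _ _ (by rw [Nat.sub_add_cancel (by omega)]; exact hk0)] at h3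
    apply hT _ _ ?_ h3
    rw [coeff_zero_eq_eval_zero, eval_pow, ← coeff_zero_eq_eval_zero, coeff_zero_divX_pow]
    positivity
  intro a b
  exact polar hT (hcomm a b) (hsq a) (hsq b) (hsq _)

end Pool.Agent.Q116.BR
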