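import Pool.Agent.Q116.BR.Indep

set_option autoImplicit false

namespace Pool.Agent.Q116.BR

open Polynomial

universe u

/-- The left brace law. -/
def IsBrace (A : Type u) [AddCommGroup A] [Group A] : Prop :=
  ∀ a b c : A, a * (b + c) = a * b - a + a * c

variable {A : Type u} [AddCommGroup A] [Group A]

theorem one_eq_zero (h : IsBrace A) : (1 : A) = 0 := by
  have h1 := h 1 0 0
  simp only [one_mul, add_zero, zero_sub] at h1
  have : (0 : A) = -1 := h1
  rw [eq_comm, neg_eq_zero] at this
  exact this

/-- The lambda map. -/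
def lam (h : IsBrace A) (a : A) : AddMonoid.End A :=
  AddMonoidHom.mk' (fun b => a * b - a) (by
    intro b c
    rw [h a b c]
    abel)

theorem lam_apply (h : IsBrace A) (a b : A) : lam h a b = a * b - a := rfl

theorem mul_eq (h : IsBrace A) (a b : A) : a * b = a + lam h a b := by
  rw [lam_apply]; abel

theorem lam_mul (h : IsBrace A) (a b : A) : lam h (a * b) = lam h a * lam h b := by
  apply AddMonoidHom.ext
  intro c
  change a * b * c - a * b = a * (lam h b c) - a
  have h1 : a * (b * c) = a * b - a + a * lam h b c := by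
    rw [← h a b (lam h b c), ← mul_eq h b c]
  rw [mul_assoc, h1]
  abel

theorem lam_one (h : IsBrace A) : lam h 1 = 1 := by
  apply AddMonoidHom.ext
  intro c
  change 1 * c - 1 = c
  rw [one_mul, one_eq_zero h, sub_zero]

theorem lam_pow (h : IsBrace A) (a : A) (n : ℕ) : lam h (a ^ n) = lam h a ^ n := by
  induction n with
  | zero => rw [pow_zero, pow_zero, lam_one]
  | succ n ih => rw [pow_succ, pow_succ, lam_mul, ih]

theorem lam_inv_mul (h : IsBrace A) (a : A) : lam h a⁻¹ * lam h a = 1 := by
  rw [← lam_mul, inv_mul_cancel, lam_one]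

theorem lam_inj (h : IsBrace A) (a : A) {b c : A} (hbc : lam h a b = lam h a c) : b = c := by
  have h1 : lam h a⁻¹ (lam h a b) = lam h a⁻¹ (lam h a c) := by rw [hbc]
  have h2 : ∀ x, lam h a⁻¹ (lam h a x) = x := by
    intro x
    change (lam h a⁻¹ * lam h a) x = x
    rw [lam_inv_mul]; rfl
  rwa [h2, h2] at h1

/-- The endomorphism `λ_z - 1`. -/
def uu (h : IsBrace A) (z : A) : AddMonoid.End A := lam h z - 1

theorem uu_apply (h : IsBrace A) (z k : A) : uu h z k = lam h z k - k := rfl

theorem lam_comm (h : IsBrace A) {a b : A} (hab : Commute a b) : Commute (lam h a) (lam h b) := by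
  change lam h a * lam h b = lam h b * lam h a
  rw [← lam_mul, ← lam_mul, hab.eq]

theorem uu_comm (h : IsBrace A) {a b : A} (hab : Commute a b) : Commute (uu h a) (uu h b) :=
  ((lam_comm h hab).sub_left (Commute.one_left _)).sub_right
    ((Commute.one_right _))

theorem commute_aeval {R : Type*} [Ring R] {x y : R} (hxy : Commute x y) (f : ℤ[X]) :
    Commute x (aeval y f) := by
  induction f using Polynomial.induction_on' with
  | add p q hp hq => rw [map_add]; exact hp.add_right hq
  | monomial n a =>
    rw [aeval_monomial]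
    refine Commute.mul_right ?_ (hxy.pow_right n)
    change Commute x (algebraMap ℤ R a)
    exact (Algebra.commutes a x).symm

/-- Symmetry of the product with a commuting element. -/
theorem uu_swap (h : IsBrace A) {z k : A} (hzk : Commute z k) : uu h z k = uu h k z := by
  rw [uu_apply, uu_apply, lam_apply, lam_apply, hzk.eq]
  abel

/-- Evaluation at `z` of a polynomial in `u_z`. -/
noncomputable def ev (h : IsBrace A) (z : A) (f : ℤ[X]) : A := aeval (uu h z) f z

theorem ev_add (h : IsBrace A) (z : A) (f g : ℤ[X]) : ev h z (f + g) = ev h z f + ev h z g := by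
  simp only [ev, map_add]; rfl

theorem ev_sub (h : IsBrace A) (z : A) (f g : ℤ[X]) : ev h z (f - g) = ev h z f - ev h z g := by
  simp only [ev, map_sub]; rfl

theorem aeval_mul_apply {B : Type*} [AddCommGroup B] (w : AddMonoid.End B) (f g : ℤ[X]) (x : B) :
    aeval w (f * g) x = aeval w f (aeval w g x) := by
  rw [map_mul]; rfl

theorem aeval_add_apply {B : Type*} [AddCommGroup B] (w : AddMonoid.End B) (f g : ℤ[X]) (x : B) :
    aeval w (f + g) x = aeval w f x + aeval w g x := by
  rw [map_add]; rfl

theorem aeval_sub_apply {B : Type*} [AddCommGroup B] (w : AddMonoid.End B) (f g : ℤ[X]) (x : B) :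
    aeval w (f - g) x = aeval w f x - aeval w g x := by
  rw [map_sub]; rfl

theorem aeval_C_apply {B : Type*} [AddCommGroup B] (w : AddMonoid.End B) (n : ℤ) (x : B) :
    aeval w (C n) x = n • x := by
  rw [aeval_C]
  simp

theorem aeval_X_apply {B : Type*} [AddCommGroup B] (w : AddMonoid.End B) (x : B) :
    aeval w (X : ℤ[X]) x = w x := by
  rw [aeval_X]

theorem aeval_one_apply {B : Type*} [AddCommGroup B] (w : AddMonoid.End B) (x : B) :
    aeval w (1 : ℤ[X]) x = x := by
  rw [map_one]; rfl

/-- A sub-brace with a central element. -/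
structure Sub (h : IsBrace A) (z : A) (K : AddSubgroup A) : Prop where
  mem : z ∈ K
  comm : ∀ k ∈ K, Commute z k
  stab : ∀ k ∈ K, uu h z k ∈ K

section sub

variable {h : IsBrace A} {z : A} {K : AddSubgroup A}

theorem Sub.aeval_mem (hs : Sub h z K) (f : ℤ[X]) : ∀ k ∈ K, aeval (uu h z) f k ∈ K := by
  induction f using Polynomial.induction_on with
  | C a =>
    intro k hk
    rw [aeval_C_apply]
    exact K.zsmul_mem hk a
  | add p q hp hq =>
    intro k hk
    rw [aeval_add_apply]
    exact K.add_mem (hp k hk) (hq k hk)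
  | monomial n a ih =>
    intro k hk
    rw [pow_succ, ← mul_assoc, aeval_mul_apply, aeval_X_apply]
    exact ih _ (hs.stab k hk)

theorem Sub.ev_mem (hs : Sub h z K) (f : ℤ[X]) : ev h z f ∈ K := hs.aeval_mem f z hs.mem

/-- The main formula. -/
theorem Sub.star (hs : Sub h z K) (f : ℤ[X]) {k : A} (hk : k ∈ K) :
    k * ev h z f = ev h z f + aeval (uu h z) (1 + X * f) k := by
  have hc : Commute (lam h k) (uu h z) := by
    have := lam_comm h (hs.comm k hk).symm
    exact this.sub_right (Commute.one_right _)
  have hc2 := commute_aeval hc f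
  have h1 : lam h k (ev h z f) = aeval (uu h z) f (lam h k z) := by
    change (lam h k * aeval (uu h z) f) z = (aeval (uu h z) f * lam h k) z
    rw [hc2.eq]
  have h2 : lam h k z = z + uu h z k := by
    rw [lam_apply, uu_apply, lam_apply, (hs.comm k hk).eq]
    abel
  rw [mul_eq h, h1, h2, map_add, aeval_add_apply, aeval_one_apply, mul_comm X f, aeval_mul_apply,
    aeval_X_apply]
  change k + (ev h z f + _) = _
  abel

theorem Sub.inj (hs : Sub h z K) (f : ℤ[X]) {k : A} (hk : k ∈ K)
    (h0 : aeval (uu h z) (1 + X * f) k = 0) : k = 0 := by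
  have h1 := hs.star f hk
  rw [h0, add_zero] at h1
  have h2 : k = 1 := by
    have : k * ev h z f = 1 * ev h z f := by rw [one_mul]; exact h1
    exact mul_right_cancel this
  rw [h2, one_eq_zero h]

theorem Sub.ev_mul (hs : Sub h z K) (f g : ℤ[X]) :
    ev h z g * ev h z f = ev h z (f + g + X * f * g) := by
  rw [hs.star f (hs.ev_mem g), aeval_add_apply, aeval_one_apply]
  change _ + (_ + aeval (uu h z) (X * f) (aeval (uu h z) g z)) = aeval (uu h z) _ z
  rw [aeval_add_apply, aeval_add_apply, aeval_mul_apply _ (X * f) g]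
  change ev h z f + _ = ev h z f + _ + _
  change _ + (ev h z g + _) = _ + ev h z g + _
  abel

/-- The element attached to a polynomial with constant term one. -/
noncomputable def E (h : IsBrace A) (z : A) (q : ℤ[X]) : A := ev h z (divX q)

theorem eq_C_add {D : Type*} [CommRing D] (q : D[X]) : q = C (q.coeff 0) + X * divX q := by
  have := divX_mul_X_add q
  conv_lhs => rw [← this]
  rw [mul_comm, add_comm]

theorem X_mul_divX {D : Type*} [CommRing D] {q : D[X]} (hq : q.coeff 0 = 1) :
    q = 1 + X * divX q := by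
  have := eq_C_add q
  rw [hq, C_1] at this
  exact this

theorem divX_mul {q r : ℤ[X]} (hq : q.coeff 0 = 1) (hr : r.coeff 0 = 1) :
    divX (q * r) = divX r + divX q + X * divX r * divX q := by
  have h1 : (q * r).coeff 0 = 1 := by rw [mul_coeff_zero, hq, hr, one_mul]
  have h2 := X_mul_divX h1
  have h3 := X_mul_divX hq
  have h4 := X_mul_divX hr
  have h5 : X * divX (q * r) = X * (divX r + divX q + X * divX r * divX q) := by
    have : X * divX (q * r) = q * r - 1 := by
      rw [eq_sub_iff_add_eq, add_comm]; exact h2.symm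
    rw [this]
    conv_lhs => rw [h3, h4]
    ring
  exact mul_left_cancel₀ X_ne_zero h5

theorem Sub.E_mul (hs : Sub h z K) {q r : ℤ[X]} (hq : q.coeff 0 = 1) (hr : r.coeff 0 = 1) :
    E h z (q * r) = E h z q * E h z r := by
  unfold E
  rw [divX_mul hq hr, hs.ev_mul]

theorem Sub.E_comm (hs : Sub h z K) {q r : ℤ[X]} (hq : q.coeff 0 = 1) (hr : r.coeff 0 = 1) :
    Commute (E h z q) (E h z r) := by
  change E h z q * E h z r = E h z r * E h z q
  rw [← hs.E_mul hq hr, ← hs.E_mul hr hq, mul_comm]

theorem E_one (h : IsBrace A) (z : A) : E h z 1 = 1 := by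
  unfold E ev
  rw [divX_one, map_zero, one_eq_zero h]; rfl

theorem coeff_zero_pow {q : ℤ[X]} (hq : q.coeff 0 = 1) (n : ℕ) : (q ^ n).coeff 0 = 1 := by
  induction n with
  | zero => simp
  | succ n ih => rw [pow_succ, mul_coeff_zero, ih, hq, one_mul]

theorem Sub.E_pow (hs : Sub h z K) {q : ℤ[X]} (hq : q.coeff 0 = 1) (n : ℕ) :
    E h z (q ^ n) = E h z q ^ n := by
  induction n with
  | zero => rw [pow_zero, pow_zero, E_one]
  | succ n ih => rw [pow_succ, pow_succ, hs.E_mul (coeff_zero_pow hq n) hq, ih]

theorem E_one_add_X (h : IsBrace A) (z : A) : E h z (1 + X) = z := by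
  unfold E ev
  have : divX (1 + X : ℤ[X]) = 1 := by
    apply mul_left_cancel₀ (X_ne_zero (R := ℤ))
    have h1 : (1 + X : ℤ[X]).coeff 0 = 1 := by simp
    have h2 := X_mul_divX h1
    have h3 := add_left_cancel h2
    rw [← h3, mul_one]
  rw [this, aeval_one_apply]

theorem Sub.pow_eq (hs : Sub h z K) (n : ℕ) : z ^ n = E h z ((1 + X) ^ n) := by
  rw [hs.E_pow (by simp), E_one_add_X]

end sub

end Pool.Agent.Q116.BR
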