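import Pool.Agent.Q116.BR.Grp

set_option autoImplicit false

namespace Pool.Agent.Q116.BR

open Polynomial (aeval)

/-- Central elements. -/
def Cen (g : G) : Prop := X g = 0 ∧ Y g = 0

theorem Cen.comm {g : G} (hg : Cen g) (k : G) : Commute g k := central hg.1 hg.2 k

theorem Cen.ext {g k : G} (hg : Cen g) (hk : Cen k) (h : Z g = Z k) : g = k :=
  G.ext (hg.1.trans hk.1.symm) (hg.2.trans hk.2.symm) h

theorem cen_one : Cen 1 := ⟨rfl, rfl⟩

theorem Cen.mul {g k : G} (hg : Cen g) (hk : Cen k) : Cen (g * k) :=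
  ⟨by rw [X_mul, hg.1, hk.1, add_zero], by rw [Y_mul, hg.2, hk.2, add_zero]⟩

theorem Cen.inv {g : G} (hg : Cen g) : Cen g⁻¹ :=
  ⟨by rw [X_inv, hg.1, neg_zero], by rw [Y_inv, hg.2, neg_zero]⟩

theorem Cen.pow {g : G} (hg : Cen g) (n : ℕ) : Cen (g ^ n) :=
  ⟨by rw [X_pow, hg.1, mul_zero], by rw [Y_pow, hg.2, mul_zero]⟩

theorem Cen.zpow {g : G} (hg : Cen g) (n : ℤ) : Cen (g ^ n) := by
  cases n with
  | ofNat n => rw [Int.ofNat_eq_natCast, zpow_natCast]; exact hg.pow n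
  | negSucc n => rw [zpow_negSucc]; exact (hg.pow _).inv

theorem Cen.Z_zpow {g : G} (hg : Cen g) (n : ℤ) : Z (g ^ n) = n * Z g := by
  cases n with
  | ofNat n => rw [Int.ofNat_eq_natCast, zpow_natCast, Z_pow g hg.1]; simp
  | negSucc n =>
    rw [zpow_negSucc, Z_inv, Z_pow g hg.1, (hg.pow _).1, zero_mul, add_zero, Int.cast_negSucc]
    push_cast
    ring

theorem cen_comm (a b : G) : Cen (a * b * a⁻¹ * b⁻¹) := by
  constructor <;> simp

/-- Heights of the coordinates. -/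
theorem px {p : ℕ} (hp : p.Prime) (h2 : p ≠ 2) (g : G) : Op p (p * X g) ∧ Op p (p * Y g) := by
  obtain ⟨_, a2, a3, a4⟩ := g.inV p hp
  by_cases h1 : p % 8 = 1
  · exact ⟨(a2 h2 h1).1, (Op.nat hp p).mul hp (a2 h2 h1).2⟩
  · by_cases h3 : p % 8 = 3
    · exact ⟨(Op.nat hp p).mul hp (a3 h2 h3).1, (a3 h2 h3).2⟩
    · exact ⟨(a4 h2 h1 h3).1, (a4 h2 h1 h3).2.1⟩

theorem pz {p : ℕ} (hp : p.Prime) (h2 : p ≠ 2) {g : G} (hg : Cen g) : Op p (p * Z g) := by
  have h := (g.inC p hp).2 h2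
  rw [hg.1, zero_mul, sub_zero] at h
  have h3 : (p : ℚ) * Z g = ((2 : ℕ) : ℚ)⁻¹ * (p * (2 * Z g)) := by push_cast; ring
  rw [h3]
  exact (Op.inv Nat.prime_two hp (fun h => h2 h.symm)).mul hp h

/-- The generator of the centre. -/
def c0 : G := mkG 0 0 1 (by
    intro p hp
    simp only [mul_zero, sub_zero]
    exact ⟨fun _ => ⟨Op.zero hp, Op.zero hp⟩, fun _ _ => ⟨Op.zero hp, Op.zero hp⟩,
        fun _ _ => ⟨Op.zero hp, Op.zero hp⟩, fun _ _ _ => ⟨Op.zero hp, Op.zero hp, Op.zero hp⟩⟩)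
  (Op.one Nat.prime_two) (by
    intro p hp
    have h : (2 * 1 - 0 * 0 : ℚ) = ((2 : ℕ) : ℚ) := by norm_num
    rw [h]
    exact ⟨fun _ => Op.nat hp 2, fun _ => (Op.nat hp p).mul hp (Op.nat hp 2)⟩)

theorem cen_c0 : Cen c0 := ⟨rfl, rfl⟩
theorem Z_c0 : Z c0 = 1 := rfl

/-- Central roots. -/
theorem central_root {z : G} (hz : Cen z) {p : ℕ} (hp : p.Prime) (h2 : p ≠ 2)
    (hd : ¬ p ∣ (Z z).den) : ∃ c : G, Cen c ∧ c ^ p = z := by
  have hp0 : (p : ℚ) ≠ 0 := by exact_mod_cast hp.ne_zero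
  have hC := z.inC
  rw [hz.1, zero_mul, sub_zero] at hC
  refine ⟨mkG 0 0 (Z z * (p : ℚ)⁻¹) ?_ ?_ ?_, ⟨rfl, rfl⟩, ?_⟩
  · intro p hp
    simp only [mul_zero, sub_zero]
    exact ⟨fun _ => ⟨Op.zero hp, Op.zero hp⟩, fun _ _ => ⟨Op.zero hp, Op.zero hp⟩,
        fun _ _ => ⟨Op.zero hp, Op.zero hp⟩, fun _ _ _ => ⟨Op.zero hp, Op.zero hp, Op.zero hp⟩⟩
  · exact z.op2.mul Nat.prime_two (Op.inv hp Nat.prime_two h2)
  · intro q hq
    have e : 2 * (Z z * (p : ℚ)⁻¹) - 0 * 0 = 2 * Z z * (p : ℚ)⁻¹ := by ring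
    rw [e]
    refine ⟨?_, ?_⟩
    · rintro rfl
      exact ((hC 2 hq).1 rfl).mul hq (Op.inv hp hq h2)
    · intro hq2
      by_cases hqp : q = p
      · subst hqp
        have e2 : (q : ℚ) * (2 * Z z * (q : ℚ)⁻¹) = ((2 : ℕ) : ℚ) * Z z := by
          push_cast; field_simp
        rw [e2]
        exact (Op.nat hq 2).mul hq hd
      · have e2 : (q : ℚ) * (2 * Z z * (p : ℚ)⁻¹) = (q * (2 * Z z)) * (p : ℚ)⁻¹ := by ring
        rw [e2]
        exact ((hC q hq).2 hq2).mul hq (Op.inv hp hq (Ne.symm hqp))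
  · apply Cen.ext (Cen.pow ⟨rfl, rfl⟩ p) hz
    rw [Z_pow _ rfl]
    change (p : ℚ) * (Z z * (p : ℚ)⁻¹) = Z z
    field_simp

theorem heights_one (S : Set ℕ) (hS : S.Infinite) (hp : ∀ p ∈ S, p.Prime ∧ p ≠ 2) (g : G)
    (hg : ∀ p ∈ S, ∃ x : G, x ^ (p ^ 2) = g) : g = 1 := by
  have hx : X g = 0 := by
    apply zero_of_heights S hS (fun p hpS => (hp p hpS).1)
    intro p hpS
    obtain ⟨x, rfl⟩ := hg p hpS
    refine ⟨p * X x, (px (hp p hpS).1 (hp p hpS).2 x).1, ?_⟩
    rw [X_pow]; push_cast; ring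
  have hy : Y g = 0 := by
    apply zero_of_heights S hS (fun p hpS => (hp p hpS).1)
    intro p hpS
    obtain ⟨x, rfl⟩ := hg p hpS
    refine ⟨p * Y x, (px (hp p hpS).1 (hp p hpS).2 x).2, ?_⟩
    rw [Y_pow]; push_cast; ring
  refine Cen.ext ⟨hx, hy⟩ cen_one ?_
  rw [Z_one]
  apply zero_of_heights S hS (fun p hpS => (hp p hpS).1)
  intro p hpS
  obtain ⟨x, rfl⟩ := hg p hpS
  have hp0 : ((p ^ 2 : ℕ) : ℚ) ≠ 0 := by
    have := (hp p hpS).1.ne_zero
    positivity
  have hxx : X x = 0 := by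
    rw [X_pow] at hx
    exact (mul_eq_zero.1 hx).resolve_left hp0
  have hxy : Y x = 0 := by
    rw [Y_pow] at hy
    exact (mul_eq_zero.1 hy).resolve_left hp0
  refine ⟨p * Z x, pz (hp p hpS).1 (hp p hpS).2 ⟨hxx, hxy⟩, ?_⟩
  rw [Z_pow x hxx]; push_cast; ring

section brace

variable [AddCommGroup G] (h : IsBrace G)

include h

theorem tfG : TF G := tf_of_class_two h lgG (fun a b c => (cen_comm a b).comm c)

theorem self_fix {z : G} (hz : Cen z) : uu h z z = 0 := by
  have hSinf : {p : ℕ | p.Prime ∧ p ≠ 2 ∧ ¬ p ∣ (Z z).den}.Infinite := by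
    apply (primes_inf 1 (Or.inl rfl) (Z z).den).mono
    rintro p ⟨hp, h8, hlt⟩
    refine ⟨hp, ?_, ?_⟩
    · rintro rfl; norm_num at h8
    · intro hd
      exact absurd (Nat.le_of_dvd (Z z).den_pos hd) (not_le.2 hlt)
  refine fix_of_heights lgG (tfG h) hz.comm _ ?_
    (fun g hg => heights_one _ hSinf (fun p hp => ⟨hp.1, hp.2.1⟩) g hg)
  rintro p ⟨hp, h2, hd⟩
  obtain ⟨c, hc, hcz⟩ := central_root hz hp h2 hd
  exact ⟨hp.pos, c, hc.comm, hcz⟩

theorem fix_npow {c : G} (hc : lam h c c = c) (n : ℕ) : c ^ n = n • c := by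
  induction n with
  | zero => rw [pow_zero, zero_smul, one_eq_zero h]
  | succ n ih =>
    rw [pow_succ', mul_eq h, ih, map_nsmul, hc, add_smul, one_smul, add_comm]

theorem fix_zpow {c : G} (hc : lam h c c = c) (n : ℤ) : c ^ n = n • c := by
  cases n with
  | ofNat n => rw [Int.ofNat_eq_natCast, zpow_natCast, natCast_zsmul, fix_npow h hc]
  | negSucc n =>
    rw [zpow_negSucc, negSucc_zsmul, fix_npow h hc]
    apply inv_eq_of_mul_eq_one_right
    have h1 : ∀ m : ℕ, lam h (m • c) c = c := by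
      intro m
      rw [← fix_npow h hc, lam_pow]
      induction m with
      | zero => rfl
      | succ m ih =>
        rw [pow_succ]
        change (lam h c ^ m) (lam h c c) = c
        rw [hc, ih]
    rw [mul_eq h, map_neg, map_nsmul, h1, one_eq_zero h]
    abel

theorem cen_zsmul {c : G} (hc : Cen c) (n : ℤ) : n • c = c ^ n :=
  (fix_zpow h (lam_of_uu (self_fix h hc)) n).symm

theorem cen_fix {c c' : G} (hc : Cen c) (hc' : Cen c') : uu h c c' = 0 := by
  by_cases h0 : Z c = 0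
  · have : c = 1 := Cen.ext hc cen_one (by rw [h0]; rfl)
    rw [this]
    unfold uu
    rw [lam_one, sub_self]; rfl
  · set n : ℤ := (Z c').den * (Z c).num with hn
    set m : ℤ := (Z c').num * (Z c).den with hm
    have hn0 : n ≠ 0 := by
      rw [hn]
      have h1 := Rat.num_ne_zero.2 h0
      have h2 := (Z c').den_ne_zero
      exact mul_ne_zero (by exact_mod_cast h2) h1
    have e : n • c' = m • c := by
      rw [cen_zsmul h hc', cen_zsmul h hc]
      apply Cen.ext (hc'.zpow n) (hc.zpow m)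
      rw [hc'.Z_zpow, hc.Z_zpow, hn, hm]
      push_cast
      have e1 := Rat.mul_den_eq_num (Z c')
      have e2 := Rat.mul_den_eq_num (Z c)
      rw [← e1, ← e2]
      ring
    have e1 : n • uu h c c' = 0 := by
      rw [← map_zsmul, e, map_zsmul, self_fix h hc, smul_zero]
    exact tfG h n _ hn0 e1

theorem cen_add_eq {c c' : G} (hc : Cen c) (hc' : Cen c') : c + c' = c * c' := by
  rw [mul_eq h, lam_of_uu (cen_fix h hc hc')]

theorem uu_uu {c : G} (hc : Cen c) (a : G) : uu h c (uu h c a) = 0 := by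
  rw [uu_swap h (hc.comm a), uu_apply h a c, map_sub, self_fix h hc, sub_zero]
  have hcomm : uu h c (lam h a c) = lam h a (uu h c c) := by
    have h1 := lam_comm h (hc.comm a)
    have h2 : Commute (uu h c) (lam h a) := h1.sub_left (Commute.one_left _)
    change (uu h c * lam h a) c = (lam h a * uu h c) c
    rw [h2.eq]
  rw [hcomm, self_fix h hc, map_zero]

theorem uu_pow_central {c : G} (hc : Cen c) (a : G) (n : ℕ) : uu h (c ^ n) a = n • uu h c a := by
  have h1 : lam h (c ^ n) a = a + n • uu h c a := by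
    induction n with
    | zero => rw [pow_zero, lam_one, zero_smul, add_zero]; rfl
    | succ n ih =>
      rw [pow_succ', lam_mul]
      change lam h c (lam h (c ^ n) a) = _
      rw [ih, map_add, map_nsmul, lam_of_uu (uu_uu h hc a), add_smul, one_smul]
      have : lam h c a = a + uu h c a := by rw [uu_apply]; abel
      rw [this]
      abel
  rw [uu_apply, h1]
  abel

theorem root_fix {c : G} (hc : Cen c) (a : G) :
    lam h (uu h c a) (uu h c a) = uu h c a := by
  set w := uu h c a with hw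
  have hw1 : w = lam h a c - c := by rw [hw, uu_swap h (hc.comm a), uu_apply]
  have h1 : lam h w c = c := by
    apply lam_of_uu
    rw [← uu_swap h (hc.comm w)]
    exact uu_uu h hc a
  have h2 : lam h w (lam h a c) = lam h a c := by
    set t := w⁻¹ * a⁻¹ * w * a with ht
    have htc : Cen t := by
      constructor <;> simp [ht]
    have hta : w * a = a * (w * t) := by rw [ht]; group
    have h3 : lam h w (lam h a c) = lam h (w * a) c := by rw [lam_mul]; rfl
    rw [h3, hta, lam_mul, lam_mul]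
    change lam h a (lam h w (lam h t c)) = _
    rw [lam_of_uu (cen_fix h htc hc), h1]
  rw [hw1] at h1 h2 ⊢
  rw [map_sub, h2, h1]

/-- The central action takes central values. -/
theorem uu_cen {c : G} (hc : Cen c) (a : G) : Cen (uu h c a) := by
  have key : ∀ p : ℕ, p.Prime → p ≠ 2 → (Z c).den < p →
      ∃ w : G, w ^ p = uu h c a := by
    intro p hp h2 hlt
    have hd : ¬ p ∣ (Z c).den := fun hd =>
      absurd (Nat.le_of_dvd (Z c).den_pos hd) (not_le.2 hlt)
    obtain ⟨c', hc', rfl⟩ := central_root hc hp h2 hd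
    refine ⟨uu h c' a, ?_⟩
    rw [uu_pow_central h hc', fix_npow h (root_fix h hc' a)]
  constructor
  · apply zero_of_heights _ (primes_inf 3 (Or.inr (Or.inl rfl)) (Z c).den) (fun p hp => hp.1)
    rintro p ⟨hp, h8, hlt⟩
    have h2 : p ≠ 2 := by rintro rfl; norm_num at h8
    obtain ⟨w, hw⟩ := key p hp h2 hlt
    exact ⟨X w, ((w.inV p hp).2.2.1 h2 h8).1, by rw [← hw, X_pow]⟩
  · apply zero_of_heights _ (primes_inf 1 (Or.inl rfl) (Z c).den) (fun p hp => hp.1)
    rintro p ⟨hp, h8, hlt⟩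
    have h2 : p ≠ 2 := by rintro rfl; norm_num at h8
    obtain ⟨w, hw⟩ := key p hp h2 hlt
    exact ⟨Y w, ((w.inV p hp).2.1 h2 h8).2, by rw [← hw, Y_pow]⟩

theorem cen_add {c c' : G} (hc : Cen c) (hc' : Cen c') : Cen (c + c') := by
  rw [cen_add_eq h hc hc']; exact hc.mul hc'

theorem Z_add {c c' : G} (hc : Cen c) (hc' : Cen c') : Z (c + c') = Z c + Z c' := by
  rw [cen_add_eq h hc hc', Z_mul, hc.1, zero_mul, add_zero]

theorem Z_zsmul {c : G} (hc : Cen c) (n : ℤ) : Z (n • c) = n * Z c := by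
  rw [cen_zsmul h hc, hc.Z_zpow]

/-- The character of `G` on the centre. -/
noncomputable def chi (a : G) : ℚ := 1 + Z (uu h c0 a)

theorem lam_cen {c : G} (hc : Cen c) (a : G) : Cen (lam h a c) := by
  have : lam h a c = c + uu h c a := by rw [uu_swap h (hc.comm a), uu_apply]; abel
  rw [this]
  exact cen_add h hc (uu_cen h hc a)

theorem Z_lam_c0 (a : G) : Z (lam h a c0) = chi h a := by
  have : lam h a c0 = c0 + uu h c0 a := by rw [uu_swap h (cen_c0.comm a), uu_apply]; abel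
  rw [this, Z_add h cen_c0 (uu_cen h cen_c0 a)]
  rfl

theorem c_eq {c : G} (hc : Cen c) : ((Z c).den : ℤ) • c = (Z c).num • c0 := by
  rw [cen_zsmul h hc, cen_zsmul h cen_c0]
  apply Cen.ext (hc.zpow _) (cen_c0.zpow _)
  rw [hc.Z_zpow, cen_c0.Z_zpow, Z_c0]
  push_cast
  rw [mul_comm, Rat.mul_den_eq_num, mul_one]

theorem Z_lam {c : G} (hc : Cen c) (a : G) : Z (lam h a c) = chi h a * Z c := by
  have h1 := c_eq h hc
  have h2 := congrArg (fun x => Z (lam h a x)) h1
  simp only [map_zsmul] at h2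
  rw [Z_zsmul h (lam_cen h hc a), Z_zsmul h (lam_cen h cen_c0 a), Z_lam_c0] at h2
  have h3 : ((Z c).den : ℚ) ≠ 0 := by exact_mod_cast (Z c).den_ne_zero
  have h4 := Rat.mul_den_eq_num (Z c)
  push_cast at h2
  apply mul_left_cancel₀ h3
  rw [h2, ← h4]
  ring

theorem chi_mul (a b : G) : chi h (a * b) = chi h a * chi h b := by
  rw [← Z_lam_c0, lam_mul]
  change Z (lam h a (lam h b c0)) = _
  rw [Z_lam h (lam_cen h cen_c0 b), Z_lam_c0]

theorem chi_one : chi h 1 = 1 := by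
  rw [← Z_lam_c0, lam_one]; rfl

theorem chi_pow (a : G) (n : ℕ) : chi h (a ^ n) = chi h a ^ n := by
  induction n with
  | zero => rw [pow_zero, pow_zero, chi_one]
  | succ n ih => rw [pow_succ, pow_succ, chi_mul, ih]

theorem chi_cen {c : G} (hc : Cen c) : chi h c = 1 := by
  unfold chi
  rw [cen_fix h cen_c0 hc, ← one_eq_zero h, Z_one, add_zero]

theorem chi_eq {a b : G} (hx : X a = X b) (hy : Y a = Y b) : chi h a = chi h b := by
  have h1 : a = b * (b⁻¹ * a) := by group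
  have h2 : Cen (b⁻¹ * a) := by
    constructor
    · simp [hx]
    · simp [hy]
  rw [h1, chi_mul, chi_cen h h2, mul_one]

theorem kappa_zsmul (n : ℤ) (a : G) : Z (uu h c0 (n • a)) = n * Z (uu h c0 a) := by
  rw [map_zsmul, Z_zsmul h (uu_cen h cen_c0 a)]

theorem kappa_zero (a : G) : Z (uu h c0 a) = 0 := by
  by_contra hne
  set q := Z (uu h c0 a) with hq
  set m : ℤ := q.num with hm
  have hm0 : m ≠ 0 := Rat.num_ne_zero.2 hne
  have hm2 : 0 < m ^ 2 := by positivity
  set b : G := ((q.den : ℕ) : ℤ) • a with hb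
  have hkb : Z (uu h c0 b) = m := by
    rw [hb, kappa_zsmul, ← hq, hm]
    push_cast
    rw [mul_comm, Rat.mul_den_eq_num]
  set e : Fin 4 → G := fun i => (m * S (m ^ 2) i) • b with he
  have hchi : ∀ i, chi h (e i) = ((qq (m ^ 2) i : ℤ) : ℚ) := by
    intro i
    unfold chi
    simp only [he]
    rw [kappa_zsmul, hkb]
    simp only [qq]
    push_cast
    ring
  obtain ⟨s, t, hst, hrel⟩ := nat_relation (fun i => ![X (e i), Y (e i), 0])
  apply hst
  apply indep_int hm2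
  have h0 := congrFun hrel 0
  have h1 := congrFun hrel 1
  simp only [Fin.sum_univ_four, Pi.add_apply, Pi.smul_apply, Matrix.cons_val_zero,
    Matrix.cons_val_one, smul_eq_mul] at h0 h1
  have h2 : chi h (e 0 ^ s 0 * e 1 ^ s 1 * e 2 ^ s 2 * e 3 ^ s 3) =
      chi h (e 0 ^ t 0 * e 1 ^ t 1 * e 2 ^ t 2 * e 3 ^ t 3) := by
    apply chi_eq
    · simp only [X_mul, X_pow]; exact h0
    · simp only [Y_mul, Y_pow]; exact h1
  simp only [chi_mul, chi_pow, hchi] at h2
  simp only [Fin.prod_univ_four]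
  exact_mod_cast h2

/-- The centre acts trivially. -/
theorem center_trivial {c : G} (hc : Cen c) (a : G) : uu h c a = 0 := by
  have h0 : uu h c0 a = 0 := by
    rw [← one_eq_zero h]
    exact Cen.ext (uu_cen h cen_c0 a) cen_one (kappa_zero h a)
  have h1 := c_eq h hc
  have h2 := congrArg (fun x => uu h a x) h1
  simp only [map_zsmul] at h2
  rw [← uu_swap h (hc.comm a), ← uu_swap h (cen_c0.comm a), h0, smul_zero] at h2
  exact tfG h _ _ (by exact_mod_cast (Z c).den_ne_zero) h2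

end brace

end Pool.Agent.Q116.BR
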