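import Pool.Agent.Q116.BR.Abel

set_option autoImplicit false

namespace Pool.Agent.Q116.BR

/-- The denominator of `q` is prime to `p`. -/
def Op (p : ℕ) (q : ℚ) : Prop := ¬ p ∣ q.den

theorem Op.add {p : ℕ} (hp : p.Prime) {a b : ℚ} (ha : Op p a) (hb : Op p b) : Op p (a + b) := by
  intro h
  rcases hp.dvd_mul.1 (h.trans (Rat.add_den_dvd a b)) with h1 | h1
  · exact ha h1
  · exact hb h1

theorem Op.mul {p : ℕ} (hp : p.Prime) {a b : ℚ} (ha : Op p a) (hb : Op p b) : Op p (a * b) := by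
  intro h
  rcases hp.dvd_mul.1 (h.trans (Rat.mul_den_dvd a b)) with h1 | h1
  · exact ha h1
  · exact hb h1

theorem Op.neg {p : ℕ} {a : ℚ} (ha : Op p a) : Op p (-a) := by
  unfold Op
  rw [Rat.neg_den]
  exact ha

theorem Op.sub {p : ℕ} (hp : p.Prime) {a b : ℚ} (ha : Op p a) (hb : Op p b) : Op p (a - b) := by
  rw [sub_eq_add_neg]
  exact ha.add hp hb.neg

theorem Op.int {p : ℕ} (hp : p.Prime) (n : ℤ) : Op p n := by
  unfold Op
  rw [Rat.den_intCast]
  exact hp.one_lt.ne' ∘ Nat.dvd_one.1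

theorem Op.nat {p : ℕ} (hp : p.Prime) (n : ℕ) : Op p n := by
  have := Op.int hp n
  exact_mod_cast this

theorem Op.zero {p : ℕ} (hp : p.Prime) : Op p 0 := by
  have := Op.int hp 0
  exact_mod_cast this

theorem Op.one {p : ℕ} (hp : p.Prime) : Op p 1 := by
  have := Op.int hp 1
  exact_mod_cast this

theorem Op.inv {p q : ℕ} (hp : p.Prime) (hq : q.Prime) (hne : p ≠ q) : Op q (p : ℚ)⁻¹ := by
  unfold Op
  rw [Rat.inv_natCast_den_of_pos hp.pos]
  intro h
  exact hne ((Nat.prime_dvd_prime_iff_eq hq hp).1 h).symm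

theorem zero_of_heights (S : Set ℕ) (hS : S.Infinite) (hp : ∀ p ∈ S, p.Prime) (x : ℚ)
    (h : ∀ p ∈ S, ∃ y, Op p y ∧ x = p * y) : x = 0 := by
  by_contra hx
  have hn : x.num ≠ 0 := Rat.num_ne_zero.2 hx
  obtain ⟨p, hpS, hlt⟩ := hS.exists_gt x.num.natAbs
  obtain ⟨y, hy, hxy⟩ := h p hpS
  have h1 : x.num * y.den = p * y.num * x.den := by
    have e1 : (x.num : ℚ) = x * x.den := by
      rw [Rat.mul_den_eq_num]
    have e2 : (y.num : ℚ) = y * y.den := by
      rw [Rat.mul_den_eq_num]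
    have : (x.num : ℚ) * y.den = p * y.num * x.den := by
      rw [e1, e2, hxy]; ring
    exact_mod_cast this
  have h2 : (p : ℤ) ∣ x.num * y.den := by rw [h1, mul_assoc]; exact dvd_mul_right _ _
  have hpp : Prime (p : ℤ) := Nat.prime_iff_prime_int.1 (hp p hpS)
  rcases hpp.dvd_or_dvd h2 with h3 | h3
  · have h4 := Int.le_of_dvd (Int.natAbs_pos.2 hn |> fun h => by exact_mod_cast h)
      (Int.dvd_natAbs.2 h3)
    omega
  · exact hy (by exact_mod_cast h3)

/-- The rational numbers whose denominator is odd and square-free. -/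
def InC (c : ℚ) : Prop := ∀ p : ℕ, p.Prime → (p = 2 → Op p c) ∧ (p ≠ 2 → Op p (p * c))

theorem InC.add {a b : ℚ} (ha : InC a) (hb : InC b) : InC (a + b) := by
  intro p hp
  refine ⟨fun h => ((ha p hp).1 h).add hp ((hb p hp).1 h), fun h => ?_⟩
  rw [mul_add]
  exact ((ha p hp).2 h).add hp ((hb p hp).2 h)

theorem InC.neg {a : ℚ} (ha : InC a) : InC (-a) := by
  intro p hp
  refine ⟨fun h => ((ha p hp).1 h).neg, fun h => ?_⟩
  rw [mul_neg]
  exact ((ha p hp).2 h).neg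

/-- The plane lattice. -/
def InV (x y : ℚ) : Prop := ∀ p : ℕ, p.Prime →
  (p = 2 → Op p x ∧ Op p y) ∧
  (p ≠ 2 → p % 8 = 1 → Op p (p * x) ∧ Op p y) ∧
  (p ≠ 2 → p % 8 = 3 → Op p x ∧ Op p (p * y)) ∧
  (p ≠ 2 → p % 8 ≠ 1 → p % 8 ≠ 3 → Op p (p * x) ∧ Op p (p * y) ∧ Op p (x - y))

theorem InV.add {x y x' y' : ℚ} (h : InV x y) (h' : InV x' y') : InV (x + x') (y + y') := by
  intro p hp
  obtain ⟨a1, a2, a3, a4⟩ := h p hp
  obtain ⟨b1, b2, b3, b4⟩ := h' p hp
  refine ⟨fun h => ⟨(a1 h).1.add hp (b1 h).1, (a1 h).2.add hp (b1 h).2⟩, fun h h1 => ⟨?_, ?_⟩,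
    fun h h1 => ⟨?_, ?_⟩, fun h h1 h2 => ⟨?_, ?_, ?_⟩⟩
  · rw [mul_add]; exact (a2 h h1).1.add hp (b2 h h1).1
  · exact (a2 h h1).2.add hp (b2 h h1).2
  · exact (a3 h h1).1.add hp (b3 h h1).1
  · rw [mul_add]; exact (a3 h h1).2.add hp (b3 h h1).2
  · rw [mul_add]; exact (a4 h h1 h2).1.add hp (b4 h h1 h2).1
  · rw [mul_add]; exact (a4 h h1 h2).2.1.add hp (b4 h h1 h2).2.1
  · have : x + x' - (y + y') = (x - y) + (x' - y') := by ring
    rw [this]; exact (a4 h h1 h2).2.2.add hp (b4 h h1 h2).2.2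

theorem InV.neg {x y : ℚ} (h : InV x y) : InV (-x) (-y) := by
  intro p hp
  obtain ⟨a1, a2, a3, a4⟩ := h p hp
  refine ⟨fun h => ⟨(a1 h).1.neg, (a1 h).2.neg⟩, fun h h1 => ⟨?_, ?_⟩,
    fun h h1 => ⟨?_, ?_⟩, fun h h1 h2 => ⟨?_, ?_, ?_⟩⟩
  · rw [mul_neg]; exact (a2 h h1).1.neg
  · exact (a2 h h1).2.neg
  · exact (a3 h h1).1.neg
  · rw [mul_neg]; exact (a3 h h1).2.neg
  · rw [mul_neg]; exact (a4 h h1 h2).1.neg
  · rw [mul_neg]; exact (a4 h h1 h2).2.1.neg
  · have : -x - -y = -(x - y) := by ring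
    rw [this]; exact (a4 h h1 h2).2.2.neg

theorem InV.det {x y x' y' : ℚ} (h : InV x y) (h' : InV x' y') : InC (x * y' - x' * y) := by
  intro p hp
  obtain ⟨a1, a2, a3, a4⟩ := h p hp
  obtain ⟨b1, b2, b3, b4⟩ := h' p hp
  refine ⟨fun h => ?_, fun h => ?_⟩
  · exact ((a1 h).1.mul hp (b1 h).2).sub hp ((b1 h).1.mul hp (a1 h).2)
  · by_cases h1 : p % 8 = 1
    · have : (p : ℚ) * (x * y' - x' * y) = (p * x) * y' - (p * x') * y := by ring
      rw [this]
      exact ((a2 h h1).1.mul hp (b2 h h1).2).sub hp ((b2 h h1).1.mul hp (a2 h h1).2)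
    · by_cases h3 : p % 8 = 3
      · have : (p : ℚ) * (x * y' - x' * y) = x * (p * y') - x' * (p * y) := by ring
        rw [this]
        exact ((a3 h h3).1.mul hp (b3 h h3).2).sub hp ((b3 h h3).1.mul hp (a3 h h3).2)
      · have : (p : ℚ) * (x * y' - x' * y) = (p * x') * (x - y) - (p * x) * (x' - y') := by ring
        rw [this]
        exact ((b4 h h1 h3).1.mul hp (a4 h h1 h3).2.2).sub hp
          ((a4 h h1 h3).1.mul hp (b4 h h1 h3).2.2)

/-- The rational Heisenberg group. -/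
@[ext] structure Hs where
  x : ℚ
  y : ℚ
  z : ℚ

instance : Mul Hs := ⟨fun a b => ⟨a.x + b.x, a.y + b.y, a.z + b.z + a.x * b.y⟩⟩
instance : One Hs := ⟨⟨0, 0, 0⟩⟩
instance : Inv Hs := ⟨fun a => ⟨-a.x, -a.y, -a.z + a.x * a.y⟩⟩

@[simp] theorem Hs.mul_x (a b : Hs) : (a * b).x = a.x + b.x := rfl
@[simp] theorem Hs.mul_y (a b : Hs) : (a * b).y = a.y + b.y := rfl
@[simp] theorem Hs.mul_z (a b : Hs) : (a * b).z = a.z + b.z + a.x * b.y := rfl
@[simp] theorem Hs.one_x : (1 : Hs).x = 0 := rfl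
@[simp] theorem Hs.one_y : (1 : Hs).y = 0 := rfl
@[simp] theorem Hs.one_z : (1 : Hs).z = 0 := rfl
@[simp] theorem Hs.inv_x (a : Hs) : (a⁻¹).x = -a.x := rfl
@[simp] theorem Hs.inv_y (a : Hs) : (a⁻¹).y = -a.y := rfl
@[simp] theorem Hs.inv_z (a : Hs) : (a⁻¹).z = -a.z + a.x * a.y := rfl

instance : Group Hs :=
  Group.ofLeftAxioms
    (by intro a b c; ext <;> simp <;> ring)
    (by intro a; ext <;> simp)
    (by intro a; ext <;> simp)

/-- The group of the counterexample. -/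
def GG : Subgroup Hs where
  carrier := {g | InV g.x g.y ∧ Op 2 g.z ∧ InC (2 * g.z - g.x * g.y)}
  mul_mem' := by
    rintro a b ⟨ha1, ha2, ha3⟩ ⟨hb1, hb2, hb3⟩
    refine ⟨ha1.add hb1, ?_, ?_⟩
    · have hp := Nat.prime_two
      have e1 := ((ha1 2 hp).1 rfl).1
      have e2 := ((hb1 2 hp).1 rfl).2
      exact (ha2.add hp hb2).add hp (e1.mul hp e2)
    · have : 2 * (a * b).z - (a * b).x * (a * b).y =
          (2 * a.z - a.x * a.y) + (2 * b.z - b.x * b.y) + (a.x * b.y - b.x * a.y) := by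
        simp; ring
      rw [this]
      exact (ha3.add hb3).add (ha1.det hb1)
  one_mem' := by
    refine ⟨?_, ?_, ?_⟩
    · intro p hp
      simp only [Hs.one_x, Hs.one_y, mul_zero, sub_zero]
      exact ⟨fun _ => ⟨Op.zero hp, Op.zero hp⟩, fun _ _ => ⟨Op.zero hp, Op.zero hp⟩,
        fun _ _ => ⟨Op.zero hp, Op.zero hp⟩, fun _ _ _ => ⟨Op.zero hp, Op.zero hp, Op.zero hp⟩⟩
    · exact Op.zero Nat.prime_two
    · intro p hp
      simp only [Hs.one_x, Hs.one_y, Hs.one_z, mul_zero, sub_zero]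
      exact ⟨fun _ => Op.zero hp, fun _ => Op.zero hp⟩
  inv_mem' := by
    rintro a ⟨ha1, ha2, ha3⟩
    refine ⟨ha1.neg, ?_, ?_⟩
    · have hp := Nat.prime_two
      have e1 := (ha1 2 hp).1 rfl
      exact ha2.neg.add hp (e1.1.mul hp e1.2)
    · have : 2 * (a⁻¹).z - (a⁻¹).x * (a⁻¹).y = -(2 * a.z - a.x * a.y) := by
        simp; ring
      rw [this]
      exact ha3.neg

abbrev G := ↥GG

def X (g : G) : ℚ := g.1.x
def Y (g : G) : ℚ := g.1.y
def Z (g : G) : ℚ := g.1.z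

@[simp] theorem X_mul (g k : G) : X (g * k) = X g + X k := rfl
@[simp] theorem Y_mul (g k : G) : Y (g * k) = Y g + Y k := rfl
@[simp] theorem Z_mul (g k : G) : Z (g * k) = Z g + Z k + X g * Y k := rfl
@[simp] theorem X_one : X 1 = 0 := rfl
@[simp] theorem Y_one : Y 1 = 0 := rfl
@[simp] theorem Z_one : Z 1 = 0 := rfl
@[simp] theorem X_inv (g : G) : X g⁻¹ = -X g := rfl
@[simp] theorem Y_inv (g : G) : Y g⁻¹ = -Y g := rfl
@[simp] theorem Z_inv (g : G) : Z g⁻¹ = -Z g + X g * Y g := rfl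

@[ext] theorem G.ext {g k : G} (hx : X g = X k) (hy : Y g = Y k) (hz : Z g = Z k) : g = k :=
  Subtype.ext (Hs.ext hx hy hz)

@[simp] theorem X_pow (g : G) (n : ℕ) : X (g ^ n) = n * X g := by
  induction n with
  | zero => simp
  | succ n ih => rw [pow_succ, X_mul, ih]; push_cast; ring

@[simp] theorem Y_pow (g : G) (n : ℕ) : Y (g ^ n) = n * Y g := by
  induction n with
  | zero => simp
  | succ n ih => rw [pow_succ, Y_mul, ih]; push_cast; ring

theorem Z_pow (g : G) (hg : X g = 0) (n : ℕ) : Z (g ^ n) = n * Z g := by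
  induction n with
  | zero => simp
  | succ n ih => rw [pow_succ, Z_mul, ih, X_pow, hg]; push_cast; ring

theorem commute_iff (g k : G) : Commute g k ↔ X g * Y k = X k * Y g := by
  constructor
  · intro h
    have := congrArg Z h.eq
    simp only [Z_mul] at this
    linarith
  · intro h
    apply G.ext
    · simp [add_comm]
    · simp [add_comm]
    · simp only [Z_mul]; linarith

theorem central {g : G} (hx : X g = 0) (hy : Y g = 0) (k : G) : Commute g k := by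
  rw [commute_iff, hx, hy]; simp

/-- The logarithm of `G`. -/
noncomputable def lgG : LG G where
  lg := fun g => ![X g, Y g, Z g - X g * Y g / 2]
  inj := by
    intro g k h
    have h0 := congrFun h 0
    have h1 := congrFun h 1
    have h2 := congrFun h 2
    simp at h0 h1 h2
    apply G.ext h0 h1
    rw [h0, h1] at h2
    linarith
  add := by
    intro a b hab
    rw [commute_iff] at hab
    funext i
    fin_cases i
    · simp
    · simp
    · simp
      linarith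

/-- Constructor of elements of `G`. -/
def mkG (x y z : ℚ) (h1 : InV x y) (h2 : Op 2 z) (h3 : InC (2 * z - x * y)) : G :=
  ⟨⟨x, y, z⟩, h1, h2, h3⟩

theorem G.inV (g : G) : InV (X g) (Y g) := g.2.1
theorem G.op2 (g : G) : Op 2 (Z g) := g.2.2.1
theorem G.inC (g : G) : InC (2 * Z g - X g * Y g) := g.2.2.2

theorem primes_inf (r : ℕ) (hr : r % 8 = 1 ∨ r % 8 = 3 ∨ r % 8 = 5) (m : ℕ) :
    {p : ℕ | p.Prime ∧ p % 8 = r % 8 ∧ m < p}.Infinite := by
  have hu : IsUnit ((r : ℕ) : ZMod 8) := by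
    rw [ZMod.isUnit_iff_coprime]
    have h1 : Nat.gcd r 8 = Nat.gcd (r % 8) 8 := by
      rw [Nat.gcd_comm, Nat.gcd_rec]
    unfold Nat.Coprime
    rw [h1]
    rcases hr with h | h | h <;> rw [h] <;> rfl
  have hinf := Nat.infinite_setOfPred_prime_and_eq_mod hu
  have h2 : {p : ℕ | p.Prime ∧ p % 8 = r % 8 ∧ m < p} =
      {p : ℕ | p.Prime ∧ (p : ZMod 8) = (r : ZMod 8)} \ {p : ℕ | p ≤ m} := by
    ext p
    simp only [Set.mem_ofPred_eq, Set.mem_sdiff, not_le]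
    rw [ZMod.natCast_eq_natCast_iff']
    tauto
  rw [h2]
  exact hinf.sdiff (Set.finite_le_nat m)

end Pool.Agent.Q116.BR
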