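import Mathlib

set_option autoImplicit false

namespace Pool.Agent.Q116.BR

open Polynomial

/-- Pairwise coprime non-units of a domain are multiplicatively independent. -/
theorem indep {D : Type*} [CommRing D] [IsDomain D] {n : ℕ} (q : Fin n → D)
    (hc : ∀ i j, i ≠ j → IsCoprime (q i) (q j)) (hu : ∀ i, ¬ IsUnit (q i)) (h0 : ∀ i, q i ≠ 0)
    (a b : Fin n → ℕ) (h : ∏ i, q i ^ a i = ∏ i, q i ^ b i) : a = b := by
  have key : ∀ (a b : Fin n → ℕ), ∏ i, q i ^ a i = ∏ i, q i ^ b i → ∀ i, ¬ (b i < a i) := by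
    intro a b h i hi
    rw [← Finset.mul_prod_erase _ _ (Finset.mem_univ i),
      ← Finset.mul_prod_erase _ (fun j => q j ^ b j) (Finset.mem_univ i)] at h
    have h1 : q i ^ a i = q i ^ b i * (q i * q i ^ (a i - b i - 1)) := by
      rw [← pow_succ', ← pow_add]; congr 1; omega
    rw [h1, mul_assoc] at h
    have h2 := mul_left_cancel₀ (pow_ne_zero _ (h0 i)) h
    have h3 : q i ∣ ∏ j ∈ Finset.univ.erase i, q j ^ b j := by
      rw [← h2, mul_assoc]; exact dvd_mul_right _ _
    have h4 : IsCoprime (q i) (∏ j ∈ Finset.univ.erase i, q j ^ b j) := by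
      apply IsCoprime.prod_right
      intro j hj
      exact (hc i j (Finset.ne_of_mem_erase hj).symm).pow_right
    exact hu i (h4.isUnit_of_dvd' dvd_rfl h3)
  funext i
  exact le_antisymm (not_lt.1 (key a b h i)) (not_lt.1 (key b a h.symm i))

/-- The product of the first terms of the Euclid type sequence. -/
def S {D : Type*} [CommRing D] (e : D) : ℕ → D
  | 0 => 1
  | n + 1 => S e n * (1 + e * S e n)

/-- The Euclid type sequence. -/
def qq {D : Type*} [CommRing D] (e : D) (n : ℕ) : D := 1 + e * S e n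

theorem qq_dvd {D : Type*} [CommRing D] (e : D) {i j : ℕ} (h : j < i) : qq e j ∣ S e i := by
  induction i with
  | zero => exact absurd h (Nat.not_lt_zero _)
  | succ i ih =>
    rcases Nat.lt_succ_iff_lt_or_eq.1 h with h1 | h1
    · exact (ih h1).trans (dvd_mul_right _ _)
    · subst h1
      exact dvd_mul_left _ _

theorem qq_coprime_lt {D : Type*} [CommRing D] (e : D) {i j : ℕ} (h : j < i) :
    IsCoprime (qq e i) (qq e j) := by
  obtain ⟨c, hc⟩ := qq_dvd e h
  refine ⟨1, -(e * c), ?_⟩
  have : qq e i = 1 + e * S e i := rfl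
  rw [this, hc]
  ring

theorem qq_coprime {D : Type*} [CommRing D] (e : D) {i j : ℕ} (h : i ≠ j) :
    IsCoprime (qq e i) (qq e j) := by
  rcases lt_or_gt_of_ne h with h | h
  · exact (qq_coprime_lt e h).symm
  · exact qq_coprime_lt e h

theorem map_S {D D' : Type*} [CommRing D] [CommRing D'] (φ : D →+* D') (e : D) (n : ℕ) :
    φ (S e n) = S (φ e) n := by
  induction n with
  | zero => exact map_one φ
  | succ n ih => simp only [S, map_mul, map_add, map_one, ih]

theorem map_qq {D D' : Type*} [CommRing D] [CommRing D'] (φ : D →+* D') (e : D) (n : ℕ) :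
    φ (qq e n) = qq (φ e) n := by
  simp only [qq, map_mul, map_add, map_one, map_S]

theorem coeff_zero_S {D : Type*} [CommRing D] (n : ℕ) : (S (X : D[X]) n).coeff 0 = 1 := by
  induction n with
  | zero => simp [S]
  | succ n ih => simp [S, mul_coeff_zero, ih]

theorem coeff_zero_qq {D : Type*} [CommRing D] (n : ℕ) : (qq (X : D[X]) n).coeff 0 = 1 := by
  simp [qq]

theorem qq_ne_zero {D : Type*} [CommRing D] [Nontrivial D] (n : ℕ) : qq (X : D[X]) n ≠ 0 := by
  intro h
  have := coeff_zero_qq (D := D) n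
  rw [h] at this
  simp at this

theorem qq_not_unit {D : Type*} [CommRing D] [IsDomain D] (n : ℕ) :
    ¬ IsUnit (qq (X : D[X]) n) := by
  intro h
  obtain ⟨r, _, hr⟩ := Polynomial.isUnit_iff.1 h
  have h0 : r = 1 := by
    have := congrArg (fun p => coeff p 0) hr
    simpa [coeff_zero_qq] using this
  subst h0
  have h1 : (X : D[X]) * S X n = 0 := by
    have : qq (X : D[X]) n = 1 + X * S X n := rfl
    rw [this] at hr
    have h2 : (1 : D[X]) + X * S X n = 1 + 0 := by rw [← hr]; simp
    exact add_left_cancel h2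
  rcases mul_eq_zero.1 h1 with h2 | h2
  · exact X_ne_zero h2
  · have := coeff_zero_S (D := D) n
    rw [h2] at this
    simp at this

theorem indep_poly {D : Type*} [CommRing D] [IsDomain D] {n : ℕ} (a b : Fin n → ℕ)
    (h : ∏ i : Fin n, (qq (X : D[X]) i) ^ a i = ∏ i : Fin n, (qq (X : D[X]) i) ^ b i) : a = b :=
  indep (fun i : Fin n => qq (X : D[X]) i)
    (fun _ _ hij => qq_coprime _ (fun h => hij (Fin.ext h))) (fun _ => qq_not_unit _)
    (fun _ => qq_ne_zero _) a b h

theorem S_pos {e : ℤ} (he : 0 < e) (n : ℕ) : 0 < S e n := by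
  induction n with
  | zero => exact one_pos
  | succ n ih =>
    simp only [S]
    positivity

theorem indep_int {e : ℤ} (he : 0 < e) {n : ℕ} (a b : Fin n → ℕ)
    (h : ∏ i : Fin n, (qq e i) ^ a i = ∏ i : Fin n, (qq e i) ^ b i) : a = b := by
  have hpos : ∀ i : ℕ, 1 < qq e i := by
    intro i
    have h1 : qq e i = 1 + e * S e i := rfl
    have h2 := S_pos he i
    have : 0 < e * S e i := mul_pos he h2
    linarith
  refine indep (fun i : Fin n => qq e i)
    (fun i j hij => qq_coprime _ (fun h => hij (Fin.ext h))) (fun i hi => ?_)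
    (fun i => ?_) a b h
  · rcases Int.isUnit_iff.1 hi with h1 | h1
    · have := hpos i; omega
    · have := hpos i; omega
  · have := hpos i
    omega

/-- Linear dependence with natural coefficients. -/
theorem nat_relation (v : Fin 4 → (Fin 3 → ℚ)) :
    ∃ a b : Fin 4 → ℕ, a ≠ b ∧ ∑ i, (a i : ℚ) • v i = ∑ i, (b i : ℚ) • v i := by
  have hlt : Module.finrank ℚ (Fin 3 → ℚ) < Fintype.card (Fin 4) := by simp
  have hnl : ¬ LinearIndependent ℚ v := by
    intro hl
    have := hl.fintype_card_le_finrank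
    omega
  rw [Fintype.not_linearIndependent_iff] at hnl
  obtain ⟨g, hg, i0, hi0⟩ := hnl
  obtain ⟨d, hd⟩ := IsLocalization.exist_integer_multiples_of_finite (nonZeroDivisors ℤ) g
  choose m hm using hd
  have hd0 : (d : ℤ) ≠ 0 := nonZeroDivisors.ne_zero d.2
  have hm' : ∀ i, (m i : ℚ) = (d : ℤ) * g i := by
    intro i
    have := hm i
    simpa [Submonoid.smul_def] using this
  refine ⟨fun i => (m i).toNat, fun i => (- m i).toNat, ?_, ?_⟩
  · intro h
    have h1 := congrFun h i0
    have h2 : m i0 = 0 := by omega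
    have h3 := hm' i0
    rw [h2] at h3
    have : ((d : ℤ) : ℚ) * g i0 = 0 := by rw [← h3]; simp
    rcases mul_eq_zero.1 this with h4 | h4
    · exact hd0 (by exact_mod_cast h4)
    · exact hi0 h4
  · rw [← sub_eq_zero, ← Finset.sum_sub_distrib]
    have : ∀ i, (((m i).toNat : ℚ) • v i - ((-m i).toNat : ℚ) • v i) = ((d : ℤ) : ℚ) • (g i • v i) := by
      intro i
      rw [← sub_smul, smul_smul, ← hm' i]
      congr 1
      have h1 : ((m i).toNat : ℤ) - ((-m i).toNat : ℤ) = m i := by omega
      exact_mod_cast h1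
    rw [Finset.sum_congr rfl (fun i _ => this i), ← Finset.smul_sum, hg, smul_zero]

end Pool.Agent.Q116.BR
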