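import Pool.Agent.Q116.BR.Center

set_option autoImplicit false

namespace Pool.Agent.Q116.BR

section brace

variable [AddCommGroup G] (h : IsBrace G)

include h

theorem lam_cen_one {c : G} (hc : Cen c) (a : G) : lam h c a = a :=
  lam_of_uu (center_trivial h hc a)

theorem cen_mul_eq {c : G} (hc : Cen c) (a : G) : a * c = a + c := by
  rw [← (hc.comm a).eq, mul_eq h, lam_cen_one h hc, add_comm]

/-- The centre as an additive subgroup. -/
def CA : AddSubgroup G where
  carrier := {g | Cen g}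
  add_mem' := fun ha hb => cen_add h ha hb
  zero_mem' := by
    rw [← one_eq_zero h]; exact cen_one
  neg_mem' := by
    intro c hc
    have : -c = c⁻¹ := by
      symm
      apply inv_eq_of_mul_eq_one_right
      rw [mul_eq h, lam_cen_one h hc, add_neg_cancel, one_eq_zero h]
    rw [this]
    exact Cen.inv hc

/-- The quotient. -/
abbrev QB : Type := G ⧸ CA h

theorem rel_iff (a b : G) : -a + b ∈ CA h ↔ X a = X b ∧ Y a = Y b := by
  constructor
  · intro hm
    have h1 : b = a * (-a + b) := by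
      rw [cen_mul_eq h (c := -a + b) hm]; abel
    have hm' : Cen (-a + b) := hm
    constructor
    · rw [h1, X_mul, hm'.1, add_zero]
    · rw [h1, Y_mul, hm'.2, add_zero]
  · rintro ⟨hx, hy⟩
    have hc : Cen (a⁻¹ * b) := ⟨by simp [hx], by simp [hy]⟩
    have h1 : b = a * (a⁻¹ * b) := by group
    have h2 : -a + b = a⁻¹ * b := by
      conv_lhs => rw [h1]
      rw [cen_mul_eq h hc]; abel
    rw [h2]
    exact hc

/-- First coordinate on the quotient. -/
def XQ (q : QB h) : ℚ := Quotient.liftOn' q X (by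
  intro a b hab
  rw [QuotientAddGroup.leftRel_apply] at hab
  exact ((rel_iff h a b).1 hab).1)

/-- Second coordinate on the quotient. -/
def YQ (q : QB h) : ℚ := Quotient.liftOn' q Y (by
  intro a b hab
  rw [QuotientAddGroup.leftRel_apply] at hab
  exact ((rel_iff h a b).1 hab).2)

theorem XQ_mk (a : G) : XQ h (a : QB h) = X a := rfl
theorem YQ_mk (a : G) : YQ h (a : QB h) = Y a := rfl

theorem Q_ext {a b : QB h} (hx : XQ h a = XQ h b) (hy : YQ h a = YQ h b) : a = b := by
  induction a using QuotientAddGroup.induction_on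
  induction b using QuotientAddGroup.induction_on
  rw [XQ_mk, XQ_mk] at hx
  rw [YQ_mk, YQ_mk] at hy
  rw [QuotientAddGroup.eq, rel_iff]
  exact ⟨hx, hy⟩

/-- The multiplication of the quotient. -/
def mulQ (a b : QB h) : QB h := Quotient.liftOn₂' a b (fun x y => ((x * y : G) : QB h)) (by
  intro a b a' b' hab hab'
  rw [QuotientAddGroup.leftRel_apply, rel_iff] at hab hab'
  rw [QuotientAddGroup.eq, rel_iff]
  simp [hab.1, hab.2, hab'.1, hab'.2])

/-- The inversion of the quotient. -/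
def invQ (a : QB h) : QB h := Quotient.liftOn' a (fun x => ((x⁻¹ : G) : QB h)) (by
  intro a b hab
  rw [QuotientAddGroup.leftRel_apply, rel_iff] at hab
  rw [QuotientAddGroup.eq, rel_iff]
  simp [hab.1, hab.2])

/-- The group structure of the quotient. -/
@[reducible] def grpQ : Group (QB h) :=
  letI : Mul (QB h) := ⟨mulQ h⟩
  letI : Inv (QB h) := ⟨invQ h⟩
  letI : One (QB h) := ⟨((1 : G) : QB h)⟩
  Group.ofLeftAxioms
    (by
      intro a b c
      induction a using QuotientAddGroup.induction_on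
      induction b using QuotientAddGroup.induction_on
      induction c using QuotientAddGroup.induction_on
      rename_i a b c
      change (((a * b * c : G)) : QB h) = ((a * (b * c) : G) : QB h)
      rw [mul_assoc])
    (by
      intro a
      induction a using QuotientAddGroup.induction_on
      rename_i a
      change (((1 * a : G)) : QB h) = (a : QB h)
      rw [one_mul])
    (by
      intro a
      induction a using QuotientAddGroup.induction_on
      rename_i a
      change (((a⁻¹ * a : G)) : QB h) = ((1 : G) : QB h)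
      rw [inv_mul_cancel])

theorem quotient_trivial (a b : G) : Cen (uu h a b) := by
  let _ : Group (QB h) := grpQ h
  have hmul : ∀ a b : G, (a : QB h) * (b : QB h) = ((a * b : G) : QB h) := fun _ _ => rfl
  have hX : ∀ a b : QB h, XQ h (a * b) = XQ h a + XQ h b := by
    intro a b
    induction a using QuotientAddGroup.induction_on
    induction b using QuotientAddGroup.induction_on
    rfl
  have hY : ∀ a b : QB h, YQ h (a * b) = YQ h a + YQ h b := by
    intro a b
    induction a using QuotientAddGroup.induction_on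
    induction b using QuotientAddGroup.induction_on
    rfl
  have hB : IsBrace (QB h) := by
    intro a b c
    induction a using QuotientAddGroup.induction_on
    induction b using QuotientAddGroup.induction_on
    induction c using QuotientAddGroup.induction_on
    rename_i a b c
    have := h a b c
    rw [← QuotientAddGroup.mk_add, hmul, hmul, hmul, this, QuotientAddGroup.mk_add,
      QuotientAddGroup.mk_sub]
  have hcomm : ∀ a b : QB h, Commute a b := by
    intro a b
    apply Q_ext h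
    · rw [hX, hX, add_comm]
    · rw [hY, hY, add_comm]
  let L : LG (QB h) :=
    { lg := fun a => ![XQ h a, YQ h a, 0]
      inj := by
        intro a b hab
        have h0 := congrFun hab 0
        have h1 := congrFun hab 1
        exact Q_ext h h0 h1
      add := by
        intro a b _
        funext i
        fin_cases i
        · simp [hX]
        · simp [hY]
        · simp }
  have hT : TF (QB h) := tf_of_class_two hB L (fun _ _ _ => hcomm _ _)
  have hXpow : ∀ (a : QB h) (n : ℕ), XQ h (a ^ n) = n * XQ h a := by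
    intro a n
    induction n with
    | zero => simp; rfl
    | succ n ih => rw [pow_succ, hX, ih]; push_cast; ring
  have hYpow : ∀ (a : QB h) (n : ℕ), YQ h (a ^ n) = n * YQ h a := by
    intro a n
    induction n with
    | zero => simp; rfl
    | succ n ih => rw [pow_succ, hY, ih]; push_cast; ring
  have hXinv : ∀ a : QB h, XQ h a⁻¹ = - XQ h a := by
    intro a
    have := hX a⁻¹ a
    rw [inv_mul_cancel] at this
    have h1 : XQ h 1 = 0 := rfl
    rw [h1] at this
    linarith
  have hYinv : ∀ a : QB h, YQ h a⁻¹ = - YQ h a := by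
    intro a
    have := hY a⁻¹ a
    rw [inv_mul_cancel] at this
    have h1 : YQ h 1 = 0 := rfl
    rw [h1] at this
    linarith
  have hXz : ∀ (a : QB h) (n : ℤ), XQ h (a ^ n) = n * XQ h a := by
    intro a n
    cases n with
    | ofNat n => rw [Int.ofNat_eq_natCast, zpow_natCast, hXpow]; simp
    | negSucc n => rw [zpow_negSucc, hXinv, hXpow, Int.cast_negSucc]; push_cast; ring
  have hYz : ∀ (a : QB h) (n : ℤ), YQ h (a ^ n) = n * YQ h a := by
    intro a n
    cases n with
    | ofNat n => rw [Int.ofNat_eq_natCast, zpow_natCast, hYpow]; simp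
    | negSucc n => rw [zpow_negSucc, hYinv, hYpow, Int.cast_negSucc]; push_cast; ring
  -- the height argument in the quotient
  have hheight : ∀ (S : Set ℕ), S.Infinite → (∀ p ∈ S, p.Prime ∧ p ≠ 2) → ∀ g : QB h,
      (∀ p ∈ S, ∃ x : QB h, x ^ (p ^ 2) = g) → g = 1 := by
    intro S hS hp g hg
    apply Q_ext h
    · change XQ h g = 0
      apply zero_of_heights S hS (fun p hpS => (hp p hpS).1)
      intro p hpS
      obtain ⟨x, rfl⟩ := hg p hpS
      refine ⟨p * XQ h x, ?_, ?_⟩
      · induction x using QuotientAddGroup.induction_on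
        rename_i x
        exact (px (hp p hpS).1 (hp p hpS).2 x).1
      · rw [hXpow]; push_cast; ring
    · change YQ h g = 0
      apply zero_of_heights S hS (fun p hpS => (hp p hpS).1)
      intro p hpS
      obtain ⟨x, rfl⟩ := hg p hpS
      refine ⟨p * YQ h x, ?_, ?_⟩
      · induction x using QuotientAddGroup.induction_on
        rename_i x
        exact (px (hp p hpS).1 (hp p hpS).2 x).2
      · rw [hYpow]; push_cast; ring
  have hfix : ∀ (r : ℕ), (r % 8 = 1 ∨ r % 8 = 3 ∨ r % 8 = 5) → ∀ z : QB h,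
      (∀ p : ℕ, p.Prime → p ≠ 2 → p % 8 = r % 8 → ∃ c : QB h, c ^ p = z) → uu hB z z = 0 := by
    intro r hr z hz
    have hodd : ∀ p : ℕ, p % 8 = r % 8 → p ≠ 2 := by
      rintro p hp rfl
      omega
    refine fix_of_heights L hT (hcomm z) {p : ℕ | p.Prime ∧ p % 8 = r % 8 ∧ 0 < p} ?_ ?_
    · rintro p ⟨hp, h8, h0⟩
      obtain ⟨c, hc⟩ := hz p hp (hodd p h8) h8
      exact ⟨h0, c, hcomm c, hc⟩
    · exact fun g hg => hheight _ (primes_inf r hr 0) (fun p hp => ⟨hp.1, hodd p hp.2.1⟩) g hg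
  -- the three elements
  have hint : ∀ m n : ℤ, InV m n := by
    intro m n p hp
    refine ⟨fun _ => ⟨Op.int hp m, Op.int hp n⟩,
      fun _ _ => ⟨(Op.nat hp p).mul hp (Op.int hp m), Op.int hp n⟩,
      fun _ _ => ⟨Op.int hp m, (Op.nat hp p).mul hp (Op.int hp n)⟩,
      fun _ _ _ => ⟨(Op.nat hp p).mul hp (Op.int hp m), (Op.nat hp p).mul hp (Op.int hp n),
        (Op.int hp m).sub hp (Op.int hp n)⟩⟩
  have hCint : ∀ m : ℤ, InC m := fun m p hp =>
    ⟨fun _ => Op.int hp m, fun _ => (Op.nat hp p).mul hp (Op.int hp m)⟩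
  let g1 : G := mkG 1 0 0 (by exact_mod_cast hint 1 0) (by exact_mod_cast Op.int Nat.prime_two 0)
    (by have := hCint 0; simpa using this)
  let g2 : G := mkG 0 1 0 (by exact_mod_cast hint 0 1) (by exact_mod_cast Op.int Nat.prime_two 0)
    (by have := hCint 0; simpa using this)
  have hg1 : uu hB (g1 : QB h) (g1 : QB h) = 0 := by
    apply hfix 1 (Or.inl rfl)
    intro p hp h2 h8
    have hV : InV (p : ℚ)⁻¹ 0 := by
      intro q hq
      by_cases hqp : p = q
      · subst hqp
        refine ⟨fun h => absurd h h2, fun _ _ => ⟨?_, Op.zero hq⟩, fun _ h3 => ?_, fun _ h1 _ => ?_⟩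
        · rw [mul_inv_cancel₀ (by exact_mod_cast hp.ne_zero)]; exact Op.one hq
        · omega
        · omega
      · have hi := Op.inv hp hq hqp
        refine ⟨fun _ => ⟨hi, Op.zero hq⟩, fun _ _ => ⟨(Op.nat hq q).mul hq hi, Op.zero hq⟩,
          fun _ _ => ⟨hi, ?_⟩, fun _ _ _ => ⟨(Op.nat hq q).mul hq hi, ?_, ?_⟩⟩
        · rw [mul_zero]; exact Op.zero hq
        · rw [mul_zero]; exact Op.zero hq
        · rw [sub_zero]; exact hi
    refine ⟨((mkG (p : ℚ)⁻¹ 0 0 hV (Op.zero Nat.prime_two) (by simpa using hCint 0) : G) : QB h),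
      ?_⟩
    apply Q_ext h
    · rw [hXpow]
      change (p : ℚ) * (p : ℚ)⁻¹ = 1
      exact mul_inv_cancel₀ (by exact_mod_cast hp.ne_zero)
    · rw [hYpow]
      change (p : ℚ) * 0 = 0
      rw [mul_zero]
  have hg2 : uu hB (g2 : QB h) (g2 : QB h) = 0 := by
    apply hfix 3 (Or.inr (Or.inl rfl))
    intro p hp h2 h8
    have hV : InV 0 (p : ℚ)⁻¹ := by
      intro q hq
      by_cases hqp : p = q
      · subst hqp
        refine ⟨fun h => absurd h h2, fun _ h1 => ?_, fun _ _ => ⟨Op.zero hq, ?_⟩,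
          fun _ _ h3 => ?_⟩
        · omega
        · rw [mul_inv_cancel₀ (by exact_mod_cast hp.ne_zero)]; exact Op.one hq
        · omega
      · have hi := Op.inv hp hq hqp
        refine ⟨fun _ => ⟨Op.zero hq, hi⟩, fun _ _ => ⟨?_, hi⟩,
          fun _ _ => ⟨Op.zero hq, (Op.nat hq q).mul hq hi⟩,
          fun _ _ _ => ⟨?_, (Op.nat hq q).mul hq hi, ?_⟩⟩
        · rw [mul_zero]; exact Op.zero hq
        · rw [mul_zero]; exact Op.zero hq
        · rw [zero_sub]; exact hi.neg
    refine ⟨((mkG 0 (p : ℚ)⁻¹ 0 hV (Op.zero Nat.prime_two) (by simpa using hCint 0) : G) : QB h),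
      ?_⟩
    apply Q_ext h
    · rw [hXpow]
      change (p : ℚ) * 0 = 0
      rw [mul_zero]
    · rw [hYpow]
      change (p : ℚ) * (p : ℚ)⁻¹ = 1
      exact mul_inv_cancel₀ (by exact_mod_cast hp.ne_zero)
  have hg3 : uu hB ((g1 : QB h) * (g2 : QB h)) ((g1 : QB h) * (g2 : QB h)) = 0 := by
    apply hfix 5 (Or.inr (Or.inr rfl))
    intro p hp h2 h8
    have hpne : (p : ℚ) ≠ 0 := by exact_mod_cast hp.ne_zero
    have hV : InV (p : ℚ)⁻¹ (p : ℚ)⁻¹ := by
      intro q hq
      by_cases hqp : p = q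
      · subst hqp
        refine ⟨fun h => absurd h h2, fun _ h1 => ?_, fun _ h3 => ?_, fun _ _ _ => ⟨?_, ?_, ?_⟩⟩
        · omega
        · omega
        · rw [mul_inv_cancel₀ hpne]; exact Op.one hq
        · rw [mul_inv_cancel₀ hpne]; exact Op.one hq
        · rw [sub_self]; exact Op.zero hq
      · have hi := Op.inv hp hq hqp
        refine ⟨fun _ => ⟨hi, hi⟩, fun _ _ => ⟨(Op.nat hq q).mul hq hi, hi⟩,
          fun _ _ => ⟨hi, (Op.nat hq q).mul hq hi⟩,
          fun _ _ _ => ⟨(Op.nat hq q).mul hq hi, (Op.nat hq q).mul hq hi, ?_⟩⟩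
        rw [sub_self]; exact Op.zero hq
    have hpodd : p % 2 = 1 := by omega
    obtain ⟨m, hm⟩ : ∃ m : ℕ, 1 + p ^ 2 = 2 * m := by
      have : (1 + p ^ 2) % 2 = 0 := by
        rw [Nat.add_mod, Nat.pow_mod, hpodd]
      exact ⟨(1 + p ^ 2) / 2, by omega⟩
    have hmq : (1 : ℚ) + p ^ 2 = 2 * m := by exact_mod_cast hm
    refine ⟨((mkG (p : ℚ)⁻¹ (p : ℚ)⁻¹ (m * ((p : ℚ)⁻¹ * (p : ℚ)⁻¹)) hV ?_ ?_ : G) : QB h), ?_⟩
    · have hi := Op.inv hp Nat.prime_two h2
      exact (Op.nat Nat.prime_two m).mul Nat.prime_two (hi.mul Nat.prime_two hi)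
    · have : 2 * (m * ((p : ℚ)⁻¹ * (p : ℚ)⁻¹)) - (p : ℚ)⁻¹ * (p : ℚ)⁻¹ = ((1 : ℤ) : ℚ) := by
        have e : 2 * (m * ((p : ℚ)⁻¹ * (p : ℚ)⁻¹)) = (2 * m) * ((p : ℚ)⁻¹ * (p : ℚ)⁻¹) := by ring
        rw [e, ← hmq]
        field_simp
        push_cast
        ring
      rw [this]
      exact hCint 1
    · apply Q_ext h
      · rw [hXpow]
        change (p : ℚ) * (p : ℚ)⁻¹ = 1 + 0
        rw [mul_inv_cancel₀ hpne, add_zero]
      · rw [hYpow]
        change (p : ℚ) * (p : ℚ)⁻¹ = 0 + 1
        rw [mul_inv_cancel₀ hpne, zero_add]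
  have htriv := abelian_trivial L hT hcomm (g1 : QB h) (g2 : QB h) hg1 hg2 hg3 (by
    intro x
    refine ⟨(XQ h x).den * (YQ h x).den, mul_ne_zero (Rat.den_ne_zero _) (Rat.den_ne_zero _),
      (XQ h x).num * (YQ h x).den, (YQ h x).num * (XQ h x).den, ?_⟩
    have e1 := Rat.mul_den_eq_num (XQ h x)
    have e2 := Rat.mul_den_eq_num (YQ h x)
    apply Q_ext h
    · rw [hXpow, hX, hXz, hXz]
      have a1 : XQ h (g1 : QB h) = 1 := rfl
      have a2 : XQ h (g2 : QB h) = 0 := rfl
      rw [a1, a2]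
      push_cast
      rw [← e1]
      ring
    · rw [hYpow, hY, hYz, hYz]
      have a1 : YQ h (g1 : QB h) = 0 := rfl
      have a2 : YQ h (g2 : QB h) = 1 := rfl
      rw [a1, a2]
      push_cast
      rw [← e2]
      ring)
  have h1 := htriv (a : QB h) (b : QB h)
  have h2 : ((uu h a b : G) : QB h) = 0 := by
    rw [← h1]
    rw [uu_apply, uu_apply, lam_apply, lam_apply, hmul, QuotientAddGroup.mk_sub,
      QuotientAddGroup.mk_sub]
  rw [QuotientAddGroup.eq_zero_iff] at h2
  exact h2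

/-- There is no left brace with multiplicative group `G`. -/
theorem no_brace : False := by
  have hCint : ∀ m : ℤ, InC m := fun m p hp =>
    ⟨fun _ => Op.int hp m, fun _ => (Op.nat hp p).mul hp (Op.int hp m)⟩
  have hcen := quotient_trivial h
  have hr0 : ∀ a b c : G, uu h a (uu h b c) = 0 := by
    intro a b c
    rw [← uu_swap h ((hcen b c).comm a)]
    exact center_trivial h (hcen b c) a
  -- biadditivity
  have hl : ∀ a b c : G, uu h (a * b) c = uu h a c + uu h b c := by
    intro a b c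
    have h1 : lam h (a * b) c = lam h a (lam h b c) := by rw [lam_mul]; rfl
    have h2 : lam h b c = c + uu h b c := by rw [uu_apply]; abel
    have h3 := lam_of_uu (hr0 a b c)
    rw [uu_apply, h1, h2, map_add, h3, uu_apply h a c]
    abel
  have hr : ∀ a b c : G, uu h a (b * c) = uu h a b + uu h a c := by
    intro a b c
    have h2 : b * c = b + c + uu h b c := by rw [uu_apply, lam_apply]; abel
    rw [h2, map_add, map_add, hr0, add_zero]
  have hlp : ∀ (a c : G) (n : ℕ), uu h (a ^ n) c = n • uu h a c := by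
    intro a c n
    induction n with
    | zero =>
      rw [pow_zero, zero_smul]
      unfold uu
      rw [lam_one, sub_self]; rfl
    | succ n ih => rw [pow_succ, hl, ih, add_smul, one_smul]
  have hrp : ∀ (a c : G) (n : ℕ), uu h a (c ^ n) = n • uu h a c := by
    intro a c n
    induction n with
    | zero => rw [pow_zero, zero_smul, one_eq_zero h, map_zero]
    | succ n ih => rw [pow_succ, hr, ih, add_smul, one_smul]
  have hcl : ∀ c a : G, Cen c → uu h c a = 0 := fun c a hc => center_trivial h hc a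
  have hcr : ∀ c a : G, Cen c → uu h a c = 0 := by
    intro c a hc
    rw [← uu_swap h (hc.comm a)]
    exact center_trivial h hc a
  -- squares
  have hsq : ∀ (r : ℕ), (r % 8 = 1 ∨ r % 8 = 3 ∨ r % 8 = 5) → ∀ g : G,
      (∀ p : ℕ, p.Prime → p ≠ 2 → p % 8 = r % 8 → ∃ x : G, X (x ^ p) = X g ∧ Y (x ^ p) = Y g) →
      uu h g g = 0 := by
    intro r hrr g hg
    have hz : Z (uu h g g) = 0 := by
      apply zero_of_heights _ (primes_inf r hrr 0) (fun p hp => hp.1)
      rintro p ⟨hp, h8, _⟩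
      have h2 : p ≠ 2 := by rintro rfl; omega
      obtain ⟨x, hx, hy⟩ := hg p hp h2 h8
      set c := (x ^ p)⁻¹ * g with hc
      have hcc : Cen c := ⟨by rw [hc, X_mul, X_inv, hx]; ring, by rw [hc, Y_mul, Y_inv, hy]; ring⟩
      have hge : g = x ^ p * c := by rw [hc]; group
      have h3 : uu h g g = (p : ℤ) • (p : ℤ) • uu h x x := by
        rw [hge, hl, hr, hcl _ _ hcc, hcr _ _ hcc, add_zero, add_zero, hlp, hrp,
          natCast_zsmul, natCast_zsmul]
      have h4 : Cen ((p : ℤ) • uu h x x) := by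
        rw [cen_zsmul h (hcen x x)]
        exact (hcen x x).zpow _
      refine ⟨p * Z (uu h x x), pz hp h2 (hcen x x), ?_⟩
      rw [h3, Z_zsmul h h4, Z_zsmul h (hcen x x)]
      push_cast
      ring
    rw [← one_eq_zero h]
    exact Cen.ext (hcen g g) cen_one (by rw [hz]; rfl)
  have hint : ∀ m n : ℤ, InV m n := by
    intro m n p hp
    refine ⟨fun _ => ⟨Op.int hp m, Op.int hp n⟩,
      fun _ _ => ⟨(Op.nat hp p).mul hp (Op.int hp m), Op.int hp n⟩,
      fun _ _ => ⟨Op.int hp m, (Op.nat hp p).mul hp (Op.int hp n)⟩,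
      fun _ _ _ => ⟨(Op.nat hp p).mul hp (Op.int hp m), (Op.nat hp p).mul hp (Op.int hp n),
        (Op.int hp m).sub hp (Op.int hp n)⟩⟩
  let g1 : G := mkG 1 0 0 (by exact_mod_cast hint 1 0) (by exact_mod_cast Op.int Nat.prime_two 0)
    (by have := hCint 0; simpa using this)
  let g2 : G := mkG 0 1 0 (by exact_mod_cast hint 0 1) (by exact_mod_cast Op.int Nat.prime_two 0)
    (by have := hCint 0; simpa using this)
  have h1 : uu h g1 g1 = 0 := by
    apply hsq 1 (Or.inl rfl)
    intro p hp h2 h8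
    have hV : InV (p : ℚ)⁻¹ 0 := by
      intro q hq
      by_cases hqp : p = q
      · subst hqp
        refine ⟨fun h => absurd h h2, fun _ _ => ⟨?_, Op.zero hq⟩, fun _ h3 => ?_, fun _ h1 _ => ?_⟩
        · rw [mul_inv_cancel₀ (by exact_mod_cast hp.ne_zero)]; exact Op.one hq
        · omega
        · omega
      · have hi := Op.inv hp hq hqp
        refine ⟨fun _ => ⟨hi, Op.zero hq⟩, fun _ _ => ⟨(Op.nat hq q).mul hq hi, Op.zero hq⟩,
          fun _ _ => ⟨hi, ?_⟩, fun _ _ _ => ⟨(Op.nat hq q).mul hq hi, ?_, ?_⟩⟩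
        · rw [mul_zero]; exact Op.zero hq
        · rw [mul_zero]; exact Op.zero hq
        · rw [sub_zero]; exact hi
    refine ⟨mkG (p : ℚ)⁻¹ 0 0 hV (Op.zero Nat.prime_two) (by simpa using hCint 0), ?_, ?_⟩
    · rw [X_pow]
      change (p : ℚ) * (p : ℚ)⁻¹ = 1
      exact mul_inv_cancel₀ (by exact_mod_cast hp.ne_zero)
    · rw [Y_pow]
      change (p : ℚ) * 0 = 0
      rw [mul_zero]
  have h2 : uu h g2 g2 = 0 := by
    apply hsq 3 (Or.inr (Or.inl rfl))
    intro p hp h2 h8
    have hV : InV 0 (p : ℚ)⁻¹ := by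
      intro q hq
      by_cases hqp : p = q
      · subst hqp
        refine ⟨fun h => absurd h h2, fun _ h1 => ?_, fun _ _ => ⟨Op.zero hq, ?_⟩,
          fun _ _ h3 => ?_⟩
        · omega
        · rw [mul_inv_cancel₀ (by exact_mod_cast hp.ne_zero)]; exact Op.one hq
        · omega
      · have hi := Op.inv hp hq hqp
        refine ⟨fun _ => ⟨Op.zero hq, hi⟩, fun _ _ => ⟨?_, hi⟩,
          fun _ _ => ⟨Op.zero hq, (Op.nat hq q).mul hq hi⟩,
          fun _ _ _ => ⟨?_, (Op.nat hq q).mul hq hi, ?_⟩⟩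
        · rw [mul_zero]; exact Op.zero hq
        · rw [mul_zero]; exact Op.zero hq
        · rw [zero_sub]; exact hi.neg
    refine ⟨mkG 0 (p : ℚ)⁻¹ 0 hV (Op.zero Nat.prime_two) (by simpa using hCint 0), ?_, ?_⟩
    · rw [X_pow]
      change (p : ℚ) * 0 = 0
      rw [mul_zero]
    · rw [Y_pow]
      change (p : ℚ) * (p : ℚ)⁻¹ = 1
      exact mul_inv_cancel₀ (by exact_mod_cast hp.ne_zero)
  have h3 : uu h (g1 * g2) (g1 * g2) = 0 := by
    apply hsq 5 (Or.inr (Or.inr rfl))
    intro p hp h2 h8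
    have hpne : (p : ℚ) ≠ 0 := by exact_mod_cast hp.ne_zero
    have hV : InV (p : ℚ)⁻¹ (p : ℚ)⁻¹ := by
      intro q hq
      by_cases hqp : p = q
      · subst hqp
        refine ⟨fun h => absurd h h2, fun _ h1 => ?_, fun _ h3 => ?_, fun _ _ _ => ⟨?_, ?_, ?_⟩⟩
        · omega
        · omega
        · rw [mul_inv_cancel₀ hpne]; exact Op.one hq
        · rw [mul_inv_cancel₀ hpne]; exact Op.one hq
        · rw [sub_self]; exact Op.zero hq
      · have hi := Op.inv hp hq hqp
        refine ⟨fun _ => ⟨hi, hi⟩, fun _ _ => ⟨(Op.nat hq q).mul hq hi, hi⟩,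
          fun _ _ => ⟨hi, (Op.nat hq q).mul hq hi⟩,
          fun _ _ _ => ⟨(Op.nat hq q).mul hq hi, (Op.nat hq q).mul hq hi, ?_⟩⟩
        rw [sub_self]; exact Op.zero hq
    have hpodd : p % 2 = 1 := by omega
    obtain ⟨m, hm⟩ : ∃ m : ℕ, 1 + p ^ 2 = 2 * m := by
      have : (1 + p ^ 2) % 2 = 0 := by
        rw [Nat.add_mod, Nat.pow_mod, hpodd]
      exact ⟨(1 + p ^ 2) / 2, by omega⟩
    have hmq : (1 : ℚ) + p ^ 2 = 2 * m := by exact_mod_cast hm
    refine ⟨mkG (p : ℚ)⁻¹ (p : ℚ)⁻¹ (m * ((p : ℚ)⁻¹ * (p : ℚ)⁻¹)) hV ?_ ?_, ?_, ?_⟩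
    · have hi := Op.inv hp Nat.prime_two h2
      exact (Op.nat Nat.prime_two m).mul Nat.prime_two (hi.mul Nat.prime_two hi)
    · have : 2 * (m * ((p : ℚ)⁻¹ * (p : ℚ)⁻¹)) - (p : ℚ)⁻¹ * (p : ℚ)⁻¹ = ((1 : ℤ) : ℚ) := by
        have e : 2 * (m * ((p : ℚ)⁻¹ * (p : ℚ)⁻¹)) = (2 * m) * ((p : ℚ)⁻¹ * (p : ℚ)⁻¹) := by ring
        rw [e, ← hmq]
        field_simp
        push_cast
        ring
      rw [this]
      exact hCint 1
    · rw [X_pow]
      change (p : ℚ) * (p : ℚ)⁻¹ = 1 + 0
      rw [mul_inv_cancel₀ hpne, add_zero]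
    · rw [Y_pow]
      change (p : ℚ) * (p : ℚ)⁻¹ = 0 + 1
      rw [mul_inv_cancel₀ hpne, zero_add]
  -- conclusion
  rw [hl, hr, hr, h1, h2, zero_add, add_zero] at h3
  have h4 : g1 * g2 = g2 * g1 * c0 := by
    apply G.ext
    · change (1 : ℚ) + 0 = 0 + 1 + 0; norm_num
    · change (0 : ℚ) + 1 = 1 + 0 + 0; norm_num
    · change (0 : ℚ) + 0 + 1 * 1 = (0 + 0 + 0 * 0) + 1 + (0 + 1) * 0; norm_num
  have h5 : g1 * g2 = g1 + g2 + uu h g1 g2 := by rw [uu_apply, lam_apply]; abel
  have h6 : g2 * g1 = g2 + g1 + uu h g2 g1 := by rw [uu_apply, lam_apply]; abel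
  rw [cen_mul_eq h cen_c0, h5, h6] at h4
  have h7 : uu h g1 g2 = uu h g2 g1 + c0 := by
    have : g1 + g2 + uu h g1 g2 = g1 + g2 + (uu h g2 g1 + c0) := by rw [h4]; abel
    exact add_left_cancel this
  have h8 : uu h g1 g2 + uu h g1 g2 = c0 := by
    have e : uu h g2 g1 = - uu h g1 g2 := by
      rw [eq_neg_iff_add_eq_zero, add_comm]; exact h3
    rw [e] at h7
    calc uu h g1 g2 + uu h g1 g2 = uu h g1 g2 + (-uu h g1 g2 + c0) := by rw [← h7]
      _ = c0 := by abel
  have h9 := congrArg Z h8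
  rw [Z_add h (hcen _ _) (hcen _ _), Z_c0] at h9
  have h10 : Z (uu h g1 g2) = ((2 : ℕ) : ℚ)⁻¹ := by push_cast; linarith
  have h11 := (uu h g1 g2).op2
  rw [h10] at h11
  unfold Op at h11
  rw [Rat.inv_natCast_den_of_pos (by norm_num)] at h11
  exact h11 dvd_rfl

end brace

end Pool.Agent.Q116.BR
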