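import Pool.Agent.Q116.BR.Brace

set_option autoImplicit false

namespace Pool.Agent.Q116.BR

open Polynomial

universe u

variable {A : Type u} [AddCommGroup A] [Group A]

/-- A logarithm with values in a space of dimension three. -/
structure LG (A : Type u) [Group A] where
  lg : A → (Fin 3 → ℚ)
  inj : Function.Injective lg
  add : ∀ a b, Commute a b → lg (a * b) = lg a + lg b

namespace LG

variable {B : Type u} [Group B]

theorem one (L : LG B) : L.lg 1 = 0 := by
  have := L.add 1 1 (Commute.refl 1)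
  rw [mul_one] at this
  exact (left_eq_add.1 this)

theorem pow (L : LG B) (a : B) (n : ℕ) : L.lg (a ^ n) = (n : ℚ) • L.lg a := by
  induction n with
  | zero => rw [pow_zero, L.one]; simp
  | succ n ih =>
    rw [pow_succ, L.add _ _ ((Commute.refl a).pow_left n), ih]
    push_cast
    rw [add_smul, one_smul]

theorem torsion (L : LG B) {a : B} {n : ℕ} (hn : n ≠ 0) (h : a ^ n = 1) : a = 1 := by
  have h1 := L.pow a n
  rw [h, L.one] at h1
  have h2 : L.lg a = 0 := by
    rcases smul_eq_zero.1 h1.symm with h3 | h3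
    · exact absurd (by exact_mod_cast h3) hn
    · exact h3
  apply L.inj
  rw [h2, L.one]

end LG

theorem coeff_zero_prod {n : ℕ} (q : Fin n → ℤ[X]) (hq : ∀ i, (q i).coeff 0 = 1) (a : Fin n → ℕ) :
    (∏ i, q i ^ a i).coeff 0 = 1 := by
  rw [coeff_zero_eq_eval_zero, eval_prod]
  apply Finset.prod_eq_one
  intro i _
  rw [eval_pow, ← coeff_zero_eq_eval_zero, hq i, one_pow]

/-- The relation provided by the logarithm. -/
theorem relation {h : IsBrace A} {z : A} {K : AddSubgroup A} (hs : Sub h z K) (L : LG A)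
    (q : Fin 4 → ℤ[X]) (hq : ∀ i, (q i).coeff 0 = 1) :
    ∃ a b : Fin 4 → ℕ, a ≠ b ∧ E h z (∏ i, q i ^ a i) = E h z (∏ i, q i ^ b i) := by
  obtain ⟨a, b, hab, hsum⟩ := nat_relation (fun i => L.lg (E h z (q i)))
  refine ⟨a, b, hab, L.inj ?_⟩
  have key : ∀ a : Fin 4 → ℕ, L.lg (E h z (∏ i, q i ^ a i)) = ∑ i, (a i : ℚ) • L.lg (E h z (q i)) := by
    intro a
    have : ∀ s : Finset (Fin 4), (∏ i ∈ s, q i ^ a i).coeff 0 = 1 ∧
        L.lg (E h z (∏ i ∈ s, q i ^ a i)) = ∑ i ∈ s, (a i : ℚ) • L.lg (E h z (q i)) := by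
      intro s
      induction s using Finset.induction_on with
      | empty =>
        simp [E_one, L.one]
      | insert i s hi ih =>
        rw [Finset.prod_insert hi, Finset.sum_insert hi]
        have h1 := coeff_zero_pow (hq i) (a i)
        refine ⟨by rw [mul_coeff_zero, h1, ih.1, one_mul], ?_⟩
        rw [hs.E_mul h1 ih.1, L.add _ _ (hs.E_comm h1 ih.1), ih.2, hs.E_pow (hq i), L.pow]
    exact (this Finset.univ).2
  rw [key a, key b, hsum]

theorem X_mul_sub {Q R : ℤ[X]} (hQ : Q.coeff 0 = 1) (hR : R.coeff 0 = 1) :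
    X * (divX Q - divX R) = Q - R := by
  conv_rhs => rw [X_mul_divX hQ, X_mul_divX hR]
  ring

theorem modp {p : ℕ} {B : Type*} [AddCommGroup B] (w : AddMonoid.End B) {f : ℤ[X]}
    (hf : f.map (Int.castRingHom (ZMod p)) = 0) {x : B} (hx : (p : ℤ) • x = 0) :
    aeval w f x = 0 := by
  have h1 : C (p : ℤ) ∣ f := by
    rw [C_dvd_iff_dvd_coeff]
    intro i
    have := congrArg (fun g => coeff g i) hf
    simp only [coeff_map, coeff_zero] at this
    exact (ZMod.intCast_zmod_eq_zero_iff_dvd _ _).1 this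
  obtain ⟨g, rfl⟩ := h1
  rw [mul_comm, aeval_mul_apply, aeval_C_apply, hx, map_zero]

/-- There are no nonzero central elements of prime order. -/
theorem torsion_free_aux {h : IsBrace A} {z : A} {K : AddSubgroup A} (hs : Sub h z K) (L : LG A)
    {p : ℕ} (hp : p.Prime) (hK : ∀ k ∈ K, (p : ℤ) • k = 0) : z = 0 := by
  have : Fact p.Prime := ⟨hp⟩
  obtain ⟨a, b, hab, hE⟩ := relation hs L (fun i => qq (X : ℤ[X]) i) (fun i => coeff_zero_qq _)
  set Qa : ℤ[X] := ∏ i : Fin 4, (qq (X : ℤ[X]) i) ^ a i with hQa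
  set Qb : ℤ[X] := ∏ i : Fin 4, (qq (X : ℤ[X]) i) ^ b i with hQb
  have ca : Qa.coeff 0 = 1 := coeff_zero_prod _ (fun i => coeff_zero_qq _) a
  have cb : Qb.coeff 0 = 1 := coeff_zero_prod _ (fun i => coeff_zero_qq _) b
  set P : ℤ[X] := divX Qa - divX Qb with hP
  have hXP : X * P = Qa - Qb := X_mul_sub ca cb
  have hPz : aeval (uu h z) P z = 0 := by
    change ev h z P = 0
    rw [hP, ev_sub, sub_eq_zero]
    exact hE
  set φ : ℤ[X] →+* (ZMod p)[X] := mapRingHom (Int.castRingHom (ZMod p)) with hφ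
  have hφX : φ X = X := by simp [hφ]
  have hφP : φ P ≠ 0 := by
    intro h0
    apply hab
    apply indep_poly (D := ZMod p)
    have h1 : φ Qa = φ Qb := by
      rw [← sub_eq_zero, ← map_sub, ← hXP, map_mul, h0, mul_zero]
    rw [hQa, hQb, map_prod, map_prod] at h1
    simp only [map_pow, map_qq, hφX] at h1
    exact h1
  obtain ⟨Q, hQ1, hQ2⟩ := exists_eq_pow_rootMultiplicity_mul_and_not_dvd (φ P) hφP 0
  set k := rootMultiplicity 0 (φ P)
  rw [C_0, sub_zero] at hQ1 hQ2
  rw [X_dvd_iff] at hQ2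
  obtain ⟨e, he⟩ := ZMod.intCast_surjective (Q.coeff 0)⁻¹
  obtain ⟨R, hR⟩ := map_surjective (Int.castRingHom (ZMod p)) ZMod.intCast_surjective
    (divX (C (Q.coeff 0)⁻¹ * Q))
  have h1 : φ (C e * P - X ^ k * (1 + X * R)) = 0 := by
    rw [map_sub, map_mul, map_mul, map_pow, map_add, map_mul, map_one, hφX, hQ1]
    have e1 : φ (C e) = C (Q.coeff 0)⁻¹ := by
      simp [hφ, ← he]
    have e2 : φ R = divX (C (Q.coeff 0)⁻¹ * Q) := hR
    rw [e1, e2]
    have e3 : (C (Q.coeff 0)⁻¹ * Q).coeff 0 = 1 := by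
      rw [coeff_C_mul, inv_mul_cancel₀ hQ2]
    rw [← X_mul_divX e3]
    ring
  have hz : (p : ℤ) • z = 0 := hK z hs.mem
  have h2 := modp (uu h z) h1 hz
  rw [aeval_sub_apply, aeval_mul_apply, hPz, map_zero, zero_sub, neg_eq_zero, mul_comm,
    aeval_mul_apply] at h2
  have h3 : aeval (uu h z) (X ^ k) z = 0 := hs.inj R (hs.aeval_mem _ z hs.mem) h2
  -- now z ^ (p ^ k) = 1
  have h4 : z ^ (p ^ k) = 1 := by
    rw [hs.pow_eq, one_eq_zero h]
    unfold E ev
    have hc : ((1 + X : ℤ[X]) ^ (p ^ k)).coeff 0 = 1 := coeff_zero_pow (by simp) _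
    have hpk : k < p ^ k := Nat.lt_pow_self hp.one_lt
    have h5 : φ (divX ((1 + X : ℤ[X]) ^ (p ^ k)) - X ^ (p ^ k - 1)) = 0 := by
      have h6 : X * φ (divX ((1 + X : ℤ[X]) ^ (p ^ k)) - X ^ (p ^ k - 1)) = 0 := by
        have e1 : X * divX ((1 + X : ℤ[X]) ^ (p ^ k)) = (1 + X) ^ (p ^ k) - 1 := by
          conv_rhs => rw [X_mul_divX hc]
          ring
        have e2 : (X : ℤ[X]) * X ^ (p ^ k - 1) = X ^ (p ^ k) := by
          rw [← pow_succ']; congr 1; omega
        have e3 : X * φ (divX ((1 + X : ℤ[X]) ^ (p ^ k)) - X ^ (p ^ k - 1)) =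
            φ (X * divX ((1 + X : ℤ[X]) ^ (p ^ k)) - X * X ^ (p ^ k - 1)) := by
          rw [← mul_sub, map_mul, hφX]
        rw [e3, e1, e2, map_sub, map_sub, map_pow, map_pow, map_add, map_one, hφX,
          add_pow_char_pow]
        simp
      exact (mul_eq_zero.1 h6).resolve_left X_ne_zero
    have h7 := modp (uu h z) h5 hz
    rw [aeval_sub_apply, sub_eq_zero] at h7
    rw [h7]
    have e4 : (X : ℤ[X]) ^ (p ^ k - 1) = X ^ (p ^ k - 1 - k) * X ^ k := by
      rw [← pow_add]; congr 1; omega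
    rw [e4, aeval_mul_apply, h3, map_zero]
  have h5 := L.torsion (pow_ne_zero _ hp.ne_zero) h4
  rw [h5, one_eq_zero h]

/-- Additive torsion-freeness. -/
def TF (A : Type u) [AddCommGroup A] : Prop := ∀ (n : ℤ) (x : A), n ≠ 0 → n • x = 0 → x = 0

/-- Central elements act unipotently. -/
theorem nilpotent {h : IsBrace A} {z : A} {K : AddSubgroup A} (hs : Sub h z K) (L : LG A)
    (hT : TF A) : ∃ k : ℕ, aeval (uu h z) (X ^ k : ℤ[X]) z = 0 := by
  obtain ⟨a, b, hab, hE⟩ := relation hs L (fun i => qq (X : ℤ[X]) i) (fun i => coeff_zero_qq _)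
  set Qa : ℤ[X] := ∏ i : Fin 4, (qq (X : ℤ[X]) i) ^ a i with hQa
  set Qb : ℤ[X] := ∏ i : Fin 4, (qq (X : ℤ[X]) i) ^ b i with hQb
  have ca : Qa.coeff 0 = 1 := coeff_zero_prod _ (fun i => coeff_zero_qq _) a
  have cb : Qb.coeff 0 = 1 := coeff_zero_prod _ (fun i => coeff_zero_qq _) b
  set P : ℤ[X] := divX Qa - divX Qb with hP
  have hXP : X * P = Qa - Qb := X_mul_sub ca cb
  have hPz : aeval (uu h z) P z = 0 := by
    change ev h z P = 0
    rw [hP, ev_sub, sub_eq_zero]
    exact hE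
  have hP0 : P ≠ 0 := by
    intro h0
    apply hab
    apply indep_poly (D := ℤ)
    rw [h0, mul_zero] at hXP
    exact (sub_eq_zero.1 hXP.symm)
  obtain ⟨Q, hQ1, hQ2⟩ := exists_eq_pow_rootMultiplicity_mul_and_not_dvd P hP0 0
  set k := rootMultiplicity 0 P
  rw [C_0, sub_zero] at hQ1 hQ2
  rw [X_dvd_iff] at hQ2
  set d := Q.coeff 0 with hd
  set y := aeval (uu h z) (X ^ k : ℤ[X]) z with hy
  refine ⟨k, ?_⟩
  rw [← hy]
  have hd2 : 0 < d ^ 2 := by positivity
  -- action of the second family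
  have hQy : aeval (uu h z) Q y = 0 := by
    rw [hy, ← aeval_mul_apply, mul_comm, ← hQ1, hPz]
  have hXR : aeval (uu h z) (X * divX Q) y = -(d • y) := by
    rw [eq_C_add Q, aeval_add_apply, aeval_C_apply] at hQy
    rw [eq_neg_iff_add_eq_zero, add_comm]
    exact hQy
  set r : Fin 4 → ℤ[X] := fun i => 1 - C (d * S (d ^ 2) i) * (X * divX Q) with hr
  have hr0 : ∀ i, (r i).coeff 0 = 1 := by
    intro i
    simp only [hr]
    rw [coeff_sub, coeff_C_mul, mul_coeff_zero]
    simp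
  have hry : ∀ i, aeval (uu h z) (r i) y = (qq (d ^ 2) i : ℤ) • y := by
    intro i
    simp only [hr]
    rw [aeval_sub_apply, aeval_one_apply, mul_comm (C _), aeval_mul_apply, aeval_C_apply,
      map_zsmul, hXR, smul_neg, sub_neg_eq_add, smul_smul]
    simp only [qq]
    rw [add_smul, one_smul]
    congr 2
    ring
  obtain ⟨a', b', hab', hE'⟩ := relation hs L r hr0
  have hprod : ∀ a : Fin 4 → ℕ, aeval (uu h z) (∏ i, r i ^ a i) y =
      (∏ i : Fin 4, (qq (d ^ 2) i : ℤ) ^ a i) • y := by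
    intro a
    refine Finset.prod_hom_rel (r := fun f n => aeval (uu h z) f y = (n : ℤ) • y) ?_ ?_
    · rw [aeval_one_apply, one_smul]
    · intro i f n hf
      have hpow : ∀ m : ℕ, aeval (uu h z) (r i ^ m) y = ((qq (d ^ 2) i : ℤ) ^ m) • y := by
        intro m
        induction m with
        | zero => rw [pow_zero, pow_zero, aeval_one_apply, one_smul]
        | succ m ih => rw [pow_succ, pow_succ, aeval_mul_apply, hry, map_zsmul, ih, smul_smul,
            mul_comm]
      rw [aeval_mul_apply, hf, map_zsmul, hpow, smul_smul, mul_comm]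
  have hca := coeff_zero_prod r hr0 a'
  have hcb := coeff_zero_prod r hr0 b'
  have h1 : aeval (uu h z) (∏ i, r i ^ a' i) y = aeval (uu h z) (∏ i, r i ^ b' i) y := by
    rw [← sub_eq_zero, ← aeval_sub_apply, ← X_mul_sub hca hcb, hy, ← aeval_mul_apply, mul_comm,
      ← mul_assoc, aeval_mul_apply, aeval_sub_apply]
    have : aeval (uu h z) (divX (∏ i, r i ^ a' i)) z = aeval (uu h z) (divX (∏ i, r i ^ b' i)) z :=
      hE'
    rw [this, sub_self, map_zero]
  rw [hprod, hprod, ← sub_eq_zero, ← sub_smul] at h1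
  apply hT _ _ _ h1
  intro h2
  exact hab' (indep_int hd2 _ _ (sub_eq_zero.1 h2))

theorem low {B : Type*} [AddCommGroup B] (w : AddMonoid.End B) (F : ℤ[X]) (j : ℕ) {c : B}
    (hc : aeval w (X ^ (j + 1) : ℤ[X]) c = 0) :
    aeval w (X ^ j * F) c = F.coeff 0 • aeval w (X ^ j : ℤ[X]) c := by
  conv_lhs => rw [eq_C_add F]
  rw [mul_add, aeval_add_apply, aeval_mul_apply, aeval_C_apply, map_zsmul]
  have : X ^ j * (X * divX F) = divX F * X ^ (j + 1) := by ring
  rw [this, aeval_mul_apply, hc, map_zero, add_zero]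

theorem coeff_zero_divX_pow (n : ℕ) : (divX ((1 + X : ℤ[X]) ^ n)).coeff 0 = n := by
  rw [coeff_divX, coeff_one_add_X_pow]
  simp

/-- The height argument. -/
theorem fix_of_heights {h : IsBrace A} (L : LG A) (hT : TF A) {z : A} (hz : ∀ k, Commute z k)
    (S : Set ℕ) (hS : ∀ p ∈ S, 0 < p ∧ ∃ c : A, (∀ k, Commute c k) ∧ c ^ p = z)
    (hG : ∀ g : A, (∀ p ∈ S, ∃ x : A, x ^ (p ^ 2) = g) → g = 1) : uu h z z = 0 := by
  classical
  have hsub : ∀ c : A, (∀ k, Commute c k) → Sub h c ⊤ := fun c hc =>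
    ⟨trivial, fun k _ => hc k, fun k _ => trivial⟩
  have hnz := nilpotent (hsub z hz) L hT
  set k := Nat.find hnz with hk
  have hk0 := Nat.find_spec hnz
  rw [← hk] at hk0
  have hkmin : ∀ j, j < k → aeval (uu h z) (X ^ j : ℤ[X]) z ≠ 0 := fun j hj =>
    Nat.find_min hnz hj
  by_contra hcon
  have hk2 : 2 ≤ k := by
    by_contra hlt
    have : k = 0 ∨ k = 1 := by omega
    rcases this with h0 | h0
    · rw [h0, pow_zero, aeval_one_apply] at hk0
      apply hcon
      have : uu h z z = uu h z 0 := by rw [hk0]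
      rw [this, map_zero]
    · rw [h0, pow_one, aeval_X_apply] at hk0
      exact hcon hk0
  apply hkmin (k - 1) (by omega)
  rw [← one_eq_zero h]
  apply hG
  intro p hp
  obtain ⟨hp0, c, hc, hcz⟩ := hS p hp
  have hsc := hsub c hc
  have hnc := nilpotent hsc L hT
  set l := Nat.find hnc with hl
  have hl0 := Nat.find_spec hnc
  rw [← hl] at hl0
  have hlmin : ∀ j, j < l → aeval (uu h c) (X ^ j : ℤ[X]) c ≠ 0 := fun j hj =>
    Nat.find_min hnc hj
  have hl1 : 1 ≤ l := by
    by_contra hlt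
    have h0 : l = 0 := by omega
    rw [h0, pow_zero, aeval_one_apply] at hl0
    have h1 : z = 0 := by
      rw [← hcz, hl0, ← one_eq_zero h, one_pow]
    apply hcon
    have : uu h z z = uu h z 0 := by rw [h1]
    rw [this, map_zero]
  set N : ℤ[X] := divX ((1 + X : ℤ[X]) ^ p) with hN
  have hN0 : N.coeff 0 = p := coeff_zero_divX_pow p
  have hXN : (1 + X : ℤ[X]) ^ p = 1 + X * N := X_mul_divX (coeff_zero_pow (by simp) p)
  have hzc : z = aeval (uu h c) N c := by
    rw [← hcz, hsc.pow_eq]; rfl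
  have huz : uu h z = aeval (uu h c) (X * N) := by
    have h1 : lam h c = 1 + uu h c := by unfold uu; abel
    have h2 : lam h z = aeval (uu h c) ((1 + X : ℤ[X]) ^ p) := by
      rw [← hcz, lam_pow, h1, map_pow, map_add, map_one, aeval_X]
    have h3 : uu h z = lam h z - 1 := rfl
    rw [h3, h2, hXN, map_add, map_one, add_sub_cancel_left]
  have hj : ∀ j, aeval (uu h z) (X ^ j : ℤ[X]) z = aeval (uu h c) (X ^ j * N ^ (j + 1)) c := by
    intro j
    rw [map_pow, aeval_X, huz, ← map_pow]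
    conv_lhs => rw [hzc]
    rw [← aeval_mul_apply]
    congr 2
    ring
  have hNj : ∀ j, (N ^ (j + 1)).coeff 0 = (p : ℤ) ^ (j + 1) := by
    intro j
    rw [coeff_zero_eq_eval_zero, eval_pow, ← coeff_zero_eq_eval_zero, hN0]
  have hkl : k = l := by
    apply le_antisymm
    · by_contra hlt
      apply hkmin l (by omega)
      rw [hj, mul_comm, aeval_mul_apply, hl0, map_zero]
    · by_contra hlt
      have h1 : k ≤ l - 1 := by omega
      have h2 : aeval (uu h z) (X ^ (l - 1) : ℤ[X]) z = 0 := by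
        have : (X : ℤ[X]) ^ (l - 1) = X ^ (l - 1 - k) * X ^ k := by
          rw [← pow_add]; congr 1; omega
        rw [this, aeval_mul_apply, hk0, map_zero]
      rw [hj, low _ _ _ (by rw [Nat.sub_add_cancel hl1]; exact hl0), hNj] at h2
      exact hlmin (l - 1) (by omega) (hT _ _ (by positivity) h2)
  have hlk : aeval (uu h c) (X ^ (k - 1 + 1) : ℤ[X]) c = 0 := by
    rw [Nat.sub_add_cancel (by omega), hkl]; exact hl0
  set x := aeval (uu h c) (X ^ (k - 1) : ℤ[X]) c with hx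
  have hy : aeval (uu h z) (X ^ (k - 1) : ℤ[X]) z = (p : ℤ) ^ (k - 1 + 1) • x := by
    rw [hj, low _ _ _ hlk, hNj]
  have hxn : ∀ n : ℕ, x ^ n = (n : ℤ) • x := by
    intro n
    have e1 : x = E h c (1 + X * X ^ (k - 1)) := by
      unfold E ev
      have : divX (1 + X * X ^ (k - 1) : ℤ[X]) = X ^ (k - 1) := by
        have h1 : (1 + X * X ^ (k - 1) : ℤ[X]).coeff 0 = 1 := by simp
        have h2 := X_mul_divX h1
        exact (mul_left_cancel₀ X_ne_zero (add_left_cancel h2)).symm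
      rw [this]
    have hc0 : (1 + X * X ^ (k - 1) : ℤ[X]).coeff 0 = 1 := by simp
    have e2 : (1 + X * X ^ (k - 1) : ℤ[X]) ^ n =
        1 + X * (X ^ (k - 1) * (divX ((1 + X : ℤ[X]) ^ n)).comp (X * X ^ (k - 1))) := by
      have h1 : ((1 + X : ℤ[X]) ^ n) = 1 + X * divX ((1 + X : ℤ[X]) ^ n) :=
        X_mul_divX (coeff_zero_pow (by simp) n)
      have h2 := congrArg (fun f => f.comp (X * X ^ (k - 1) : ℤ[X])) h1
      simp only [pow_comp, add_comp, one_comp, X_comp, mul_comp] at h2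
      rw [h2]
      ring
    have e3 : divX ((1 + X * X ^ (k - 1) : ℤ[X]) ^ n) =
        X ^ (k - 1) * (divX ((1 + X : ℤ[X]) ^ n)).comp (X * X ^ (k - 1)) := by
      have h1 := X_mul_divX (coeff_zero_pow hc0 n)
      rw [e2] at h1
      have h2 := mul_left_cancel₀ X_ne_zero (add_left_cancel h1)
      rw [e2]
      exact h2.symm
    conv_lhs => rw [e1]
    rw [← hsc.E_pow hc0]
    unfold E ev
    rw [e3, low _ _ _ hlk]
    congr 1
    rw [coeff_zero_eq_eval_zero, eval_comp]
    simp only [eval_mul, eval_X, zero_mul]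
    rw [← coeff_zero_eq_eval_zero, coeff_zero_divX_pow]
  refine ⟨x ^ (p ^ (k - 2)), ?_⟩
  rw [← pow_mul, ← pow_add, hxn, hy]
  congr 1
  push_cast
  congr 1
  omega

end Pool.Agent.Q116.BR
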